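import Mathlib

/-!
# Mixtures of many cliques: the counting argument

The pairs of vertices are divided among few parts `t`, such that for each set `S` in the family `𝔽`
each part contains only few pairs inside `S`. If for all choices of sets `F t` in the family `𝔽` the
graph, in which the pairs of part `t` are joined if both ends lie in `F t`, contains a clique of `q`
vertices, then `𝔽` is small.
-/

set_option autoImplicit false

open Finset

namespace Pool.Agent.H641R3.RG

section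

variable {V T : Type} [DecidableEq V] [Fintype T]

/-- the vertices of `Q` that lie on a pair of `Q` of part `t` -/
def rset (p : V → V → T → Prop) [∀ v w t, Decidable (p v w t)] (Q : Finset V) (t : T) : Finset V :=
  Q.filter (fun v => ∃ w ∈ Q, p v w t)

/-- a clique covered by the parts touches the parts in many vertices altogether -/
theorem rset_sum (p : V → V → T → Prop) [∀ v w t, Decidable (p v w t)] (s g : ℕ) (hg : 1 ≤ g)
    (hs : 2 * g ≤ s) (hsym : ∀ v w t, p v w t → p w v t) (Q : Finset V) (hQ : s ≤ g * Q.card)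
    (hsize : ∀ t, 225 * g ^ 4 * ((Q ×ˢ Q).filter (fun z => p z.1 z.2 t)).card ≤ 2 * s ^ 2)
    (hcov : ∀ v ∈ Q, ∀ w ∈ Q, v ≠ w → ∃ t, p v w t) :
    5 * s ≤ ∑ t, (rset p Q t).card := by
  set e : T → ℕ := fun t => ((Q ×ˢ Q).filter (fun z => p z.1 z.2 t)).card with he
  have h1 : ∀ t, e t ≤ (rset p Q t).card ^ 2 := by
    intro t
    rw [sq, ← card_product]
    apply card_le_card
    intro z hz
    rw [mem_filter, mem_product] at hz
    obtain ⟨⟨hz1, hz2⟩, hz3⟩ := hz
    rw [mem_product]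
    constructor
    · exact mem_filter.2 ⟨hz1, z.2, hz2, hz3⟩
    · exact mem_filter.2 ⟨hz2, z.1, hz1, hsym _ _ _ hz3⟩
  have h3 : ∀ t, 2 * (15 * g ^ 2) * e t ≤ 3 * s * (rset p Q t).card := by
    intro t
    have h4 := h1 t
    have h5 : 225 * g ^ 4 * e t ≤ 2 * s ^ 2 := hsize t
    by_contra hcon
    push Not at hcon
    have h6 : (3 * s * (rset p Q t).card) ^ 2 < (2 * (15 * g ^ 2) * e t) ^ 2 :=
      Nat.pow_lt_pow_left hcon two_ne_zero
    have h7 : (2 * (15 * g ^ 2) * e t) ^ 2 = 4 * ((225 * g ^ 4 * e t) * e t) := by ring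
    have h8 : (225 * g ^ 4 * e t) * e t ≤ (2 * s ^ 2) * (rset p Q t).card ^ 2 :=
      Nat.mul_le_mul h5 h4
    have h9 : (3 * s * (rset p Q t).card) ^ 2 = 9 * (s ^ 2 * (rset p Q t).card ^ 2) := by ring
    have h10 : 2 * s ^ 2 * (rset p Q t).card ^ 2 = 2 * (s ^ 2 * (rset p Q t).card ^ 2) := by ring
    omega
  have h4 : Q.card * Q.card - Q.card ≤ ∑ t, e t := by
    rw [← offDiag_card]
    calc Q.offDiag.card ≤ (univ.biUnion fun t => (Q ×ˢ Q).filter (fun z => p z.1 z.2 t)).card := by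
          apply card_le_card
          intro z hz
          rw [mem_offDiag] at hz
          obtain ⟨t, ht⟩ := hcov _ hz.1 _ hz.2.1 hz.2.2
          rw [mem_biUnion]
          exact ⟨t, mem_univ _, mem_filter.2 ⟨mem_product.2 ⟨hz.1, hz.2.1⟩, ht⟩⟩
      _ ≤ _ := card_biUnion_le
  have hQ2 : 2 ≤ Q.card := by
    by_contra hlt
    push Not at hlt
    have : Q.card ≤ 1 := by omega
    nlinarith
  have h5 : Q.card * Q.card ≤ 2 * (Q.card * Q.card - Q.card) := by
    have : 2 * Q.card ≤ Q.card * Q.card := Nat.mul_le_mul_right _ hQ2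
    omega
  have h6 : 2 * (15 * g ^ 2) * ∑ t, e t ≤ 3 * s * ∑ t, (rset p Q t).card := by
    rw [mul_sum, mul_sum]
    exact sum_le_sum fun t _ => h3 t
  have h7 : s * s ≤ (g * Q.card) * (g * Q.card) := Nat.mul_le_mul hQ hQ
  have h9 : 15 * (s * s) ≤ 3 * s * ∑ t, (rset p Q t).card := by
    calc 15 * (s * s) ≤ 15 * ((g * Q.card) * (g * Q.card)) := Nat.mul_le_mul_left _ h7
      _ = 15 * g ^ 2 * (Q.card * Q.card) := by ring
      _ ≤ 15 * g ^ 2 * (2 * (Q.card * Q.card - Q.card)) := Nat.mul_le_mul_left _ h5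
      _ = 2 * (15 * g ^ 2) * (Q.card * Q.card - Q.card) := by ring
      _ ≤ 2 * (15 * g ^ 2) * ∑ t, e t := Nat.mul_le_mul_left _ h4
      _ ≤ _ := h6
  have h10 : 3 * s * (5 * s) ≤ 3 * s * ∑ t, (rset p Q t).card := by
    calc 3 * s * (5 * s) = 15 * (s * s) := by ring
      _ ≤ _ := h9
  exact Nat.le_of_mul_le_mul_left h10 (by omega)

end

/-- the sets of `s` elements that contain `R` -/
theorem card_supersets {V : Type} [DecidableEq V] [Fintype V] (s : ℕ) (R : Finset V) 
    (hsn : s ≤ Fintype.card V) :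
    (((univ : Finset V).powersetCard s).filter (fun S => R ⊆ S)).card * Fintype.card V ^ R.card ≤
      s ^ R.card * (Fintype.card V).choose s := by
  by_cases hR : R.card ≤ s
  swap
  · have h0 : ((univ : Finset V).powersetCard s).filter (fun S => R ⊆ S) = ∅ := by
      apply filter_eq_empty_iff.2
      intro S hS hRS
      rw [mem_powersetCard] at hS
      have := card_le_card hRS
      omega
    rw [h0, card_empty, zero_mul]
    exact Nat.zero_le _
  have h1 : (((univ : Finset V).powersetCard s).filter (fun S => R ⊆ S)).card ≤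
      (Fintype.card V - R.card).choose (s - R.card) := by
    rw [← card_compl, ← card_powersetCard]
    apply card_le_card_of_injOn (fun S => S \ R)
    · intro S hS
      have hS' : S ∈ ((univ : Finset V).powersetCard s).filter (fun S => R ⊆ S) := hS
      rw [mem_filter, mem_powersetCard] at hS'
      apply mem_coe.2
      rw [mem_powersetCard]
      refine ⟨fun v hv => ?_, ?_⟩
      · rw [mem_sdiff] at hv
        exact mem_compl.2 hv.2
      · rw [card_sdiff_of_subset hS'.2, hS'.1.2]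
    · intro S hS S' hS' h
      have hS1 : S ∈ ((univ : Finset V).powersetCard s).filter (fun S => R ⊆ S) := hS
      have hS1' : S' ∈ ((univ : Finset V).powersetCard s).filter (fun S => R ⊆ S) := hS'
      rw [mem_filter] at hS1 hS1'
      have h2 : S \ R = S' \ R := h
      rw [← sdiff_union_of_subset hS1.2, h2, sdiff_union_of_subset hS1'.2]
  have h2 : ∀ r ≤ s, (Fintype.card V - r).choose (s - r) * Fintype.card V ^ r ≤
      s ^ r * (Fintype.card V).choose s := by
    intro r
    induction r with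
    | zero => intro _; simp
    | succ r ih =>
      intro hr
      have h3 := ih (by omega)
      set n := Fintype.card V with hn
      obtain ⟨m, hm⟩ : ∃ m, n - r = m + 1 := ⟨n - r - 1, by omega⟩
      obtain ⟨k, hk⟩ : ∃ k, s - r = k + 1 := ⟨s - r - 1, by omega⟩
      have hm' : n - (r + 1) = m := by omega
      have hk' : s - (r + 1) = k := by omega
      rw [hm', hk']
      rw [hm, hk] at h3
      have h4 : (m + 1) * m.choose k = (m + 1).choose (k + 1) * (k + 1) :=
        Nat.add_one_mul_choose_eq m k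
      have h5 : n * (k + 1) ≤ s * (m + 1) := by
        have e1 : n = m + 1 + r := by omega
        have e2 : s = k + 1 + r := by omega
        have e3 : k ≤ m := by omega
        rw [e1, e2]
        nlinarith
      have h6 : (m + 1) * (m.choose k * n ^ (r + 1)) ≤ (m + 1) * (s ^ (r + 1) * n.choose s) := by
        calc (m + 1) * (m.choose k * n ^ (r + 1)) = ((m + 1) * m.choose k) * n * n ^ r := by ring
          _ = (n * (k + 1)) * ((m + 1).choose (k + 1) * n ^ r) := by rw [h4]; ring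
          _ ≤ (s * (m + 1)) * (s ^ r * n.choose s) := Nat.mul_le_mul h5 h3
          _ = _ := by ring
      exact Nat.le_of_mul_le_mul_left h6 (by omega)
  exact (Nat.mul_le_mul_right _ h1).trans (h2 _ hR)

/-- the number of sets of `q` elements -/
theorem choose_bound (n s q : ℕ) (hq : q ≤ s + 1) (hn : 2 * s ≤ n) :
    n.choose q * s ^ (q + 2 * s) ≤ n ^ (q + 2 * s) := by
  have h1 : s ^ q ≤ (2 * s).descFactorial q := by
    refine (Nat.pow_le_pow_left ?_ q).trans (Nat.pow_sub_le_descFactorial (2 * s) q)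
    omega
  have h2 : n.choose q * s ^ q ≤ n ^ q * 2 ^ (2 * s) := by
    calc n.choose q * s ^ q ≤ n.choose q * (2 * s).descFactorial q := Nat.mul_le_mul_left _ h1
      _ = n.descFactorial q * (2 * s).choose q := by
          rw [Nat.descFactorial_eq_factorial_mul_choose, Nat.descFactorial_eq_factorial_mul_choose]
          ring
      _ ≤ n ^ q * 2 ^ (2 * s) := Nat.mul_le_mul (Nat.descFactorial_le_pow _ _)
          (Nat.choose_le_two_pow _ _)
  calc n.choose q * s ^ (q + 2 * s) = (n.choose q * s ^ q) * s ^ (2 * s) := by rw [pow_add]; ring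
    _ ≤ (n ^ q * 2 ^ (2 * s)) * s ^ (2 * s) := Nat.mul_le_mul_right _ h2
    _ = n ^ q * (2 * s) ^ (2 * s) := by rw [mul_pow]; ring
    _ ≤ n ^ q * n ^ (2 * s) := Nat.mul_le_mul_left _ (Nat.pow_le_pow_left hn _)
    _ = _ := by rw [pow_add]

/-- a power of `n / s ≥ 1` may be dropped -/
theorem drop_pow (A B n s c d : ℕ) (hs : 1 ≤ s) (hsn : s ≤ n) (h : A * n ^ (c + d) ≤ s ^ (c + d) * B) :
    A * n ^ c ≤ s ^ c * B := by
  have h1 : n ^ d * (A * n ^ c) ≤ n ^ d * (s ^ c * B) := by
    calc n ^ d * (A * n ^ c) = A * n ^ (c + d) := by rw [pow_add]; ring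
      _ ≤ s ^ (c + d) * B := h
      _ = s ^ d * (s ^ c * B) := by rw [pow_add]; ring
      _ ≤ _ := Nat.mul_le_mul_right _ (Nat.pow_le_pow_left hsn _)
  exact Nat.le_of_mul_le_mul_left h1 (by
    have : 0 < n := by omega
    positivity)

/-- **Mixtures of cliques.** -/
theorem core {V T : Type} [DecidableEq V] [Fintype V] [Fintype T] [DecidableEq T]
    (p : V → V → T → Prop) [∀ v w t, Decidable (p v w t)] (s g : ℕ) (hg : 1 ≤ g)
    (hs : 2 * g ≤ s) (hn : 2 * s ≤ Fintype.card V)
    (hirr : ∀ v t, ¬ p v v t) (hsym : ∀ v w t, p v w t → p w v t)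
    (huniq : ∀ v w t t', p v w t → p v w t' → t = t')
    (𝔽 : Finset (Finset V)) (h𝔽 : ∀ S ∈ 𝔽, S.card = s)
    (hsize : ∀ S ∈ 𝔽, ∀ t,
      225 * g ^ 4 * ((S ×ˢ S).filter (fun z => p z.1 z.2 t)).card ≤ 2 * s ^ 2)
    (hmix : ∀ F : T → Finset V, (∀ t, F t ∈ 𝔽) → ∃ Q : Finset V, s ≤ g * Q.card ∧
      ∀ v ∈ Q, ∀ w ∈ Q, v ≠ w → ∃ t, p v w t ∧ v ∈ F t ∧ w ∈ F t) :
    𝔽.card ^ Fintype.card T * Fintype.card V ^ s ≤
      s ^ s * (Fintype.card V).choose s ^ Fintype.card T := by
  set n := Fintype.card V with hnV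
  obtain ⟨q, hsq, hqmin⟩ : ∃ q, s ≤ g * q ∧ ∀ q', s ≤ g * q' → q ≤ q' := by
    have hex : ∃ q, s ≤ g * q := ⟨s, Nat.le_mul_of_pos_left s (by omega)⟩
    exact ⟨Nat.find hex, Nat.find_spec hex, fun q' hq' => Nat.find_min' hex hq'⟩
  have hqs : q ≤ s + 1 := (hqmin s (Nat.le_mul_of_pos_left s (by omega))).trans (by omega)
  have hs1 : 1 ≤ s := by omega
  set 𝒬 : Finset (Finset V) := ((univ : Finset V).powersetCard q).filter (fun Q =>
    (∀ t, 225 * g ^ 4 * ((Q ×ˢ Q).filter (fun z => p z.1 z.2 t)).card ≤ 2 * s ^ 2) ∧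
    ∀ v ∈ Q, ∀ w ∈ Q, v ≠ w → ∃ t, p v w t) with h𝒬
  have hsub : Fintype.piFinset (fun _ : T => 𝔽) ⊆ 𝒬.biUnion (fun Q => Fintype.piFinset
      (fun t => ((univ : Finset V).powersetCard s).filter (fun S => rset p Q t ⊆ S))) := by
    intro F hF
    rw [Fintype.mem_piFinset] at hF
    obtain ⟨Q₀, hQ1, hQ2⟩ := hmix F hF
    obtain ⟨Q, hQQ, hQc⟩ := exists_subset_card_eq (s := Q₀) (n := q) (hqmin _ hQ1)
    have hkey : ∀ v ∈ Q, ∀ w ∈ Q, ∀ t, p v w t → v ∈ F t ∧ w ∈ F t := by
      intro v hv w hw t hvw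
      have hne : v ≠ w := by
        rintro rfl
        exact hirr _ _ hvw
      obtain ⟨t', h1, h2, h3⟩ := hQ2 v (hQQ hv) w (hQQ hw) hne
      rw [huniq v w t t' hvw h1]
      exact ⟨h2, h3⟩
    rw [mem_biUnion]
    refine ⟨Q, ?_, ?_⟩
    · rw [h𝒬, mem_filter, mem_powersetCard]
      refine ⟨⟨subset_univ _, hQc⟩, fun t => ?_, fun v hv w hw hvw => ?_⟩
      · refine le_trans (Nat.mul_le_mul_left _ (card_le_card ?_)) (hsize _ (hF t) t)
        intro z hz
        rw [mem_filter, mem_product] at hz ⊢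
        exact ⟨hkey _ hz.1.1 _ hz.1.2 t hz.2, hz.2⟩
      · obtain ⟨t, h1, _⟩ := hQ2 v (hQQ hv) w (hQQ hw) hvw
        exact ⟨t, h1⟩
    · rw [Fintype.mem_piFinset]
      intro t
      rw [mem_filter, mem_powersetCard]
      refine ⟨⟨subset_univ _, h𝔽 _ (hF t)⟩, ?_⟩
      intro v hv
      rw [rset, mem_filter] at hv
      obtain ⟨hv1, w, hw, hvw⟩ := hv
      exact (hkey v hv1 w hw t hvw).1
  set sup : Finset V → T → ℕ := fun Q t =>
    (((univ : Finset V).powersetCard s).filter (fun S => rset p Q t ⊆ S)).card with hsup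
  have h1 : 𝔽.card ^ Fintype.card T ≤ ∑ Q ∈ 𝒬, ∏ t, sup Q t := by
    calc 𝔽.card ^ Fintype.card T = (Fintype.piFinset (fun _ : T => 𝔽)).card := by
          rw [Fintype.card_piFinset, prod_const, card_univ]
      _ ≤ _ := card_le_card hsub
      _ ≤ ∑ Q ∈ 𝒬, (Fintype.piFinset (fun t => ((univ : Finset V).powersetCard s).filter
            (fun S => rset p Q t ⊆ S))).card := card_biUnion_le
      _ = _ := by
          refine sum_congr rfl fun Q hQ => ?_
          rw [Fintype.card_piFinset]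
  have h2 : ∀ Q ∈ 𝒬, (∏ t, sup Q t) * n ^ (5 * s) ≤ s ^ (5 * s) * n.choose s ^ Fintype.card T := by
    intro Q hQ
    rw [h𝒬, mem_filter, mem_powersetCard] at hQ
    have h3 := rset_sum p s g hg hs hsym Q (by rw [hQ.1.2]; exact hsq) hQ.2.1 hQ.2.2
    obtain ⟨c, hc⟩ := Nat.exists_eq_add_of_le h3
    have h4 : (∏ t, sup Q t) * n ^ (∑ t, (rset p Q t).card) ≤
        s ^ (∑ t, (rset p Q t).card) * n.choose s ^ Fintype.card T := by
      calc (∏ t, sup Q t) * n ^ (∑ t, (rset p Q t).card) =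
            ∏ t, (sup Q t * n ^ (rset p Q t).card) := by
              rw [← prod_pow_eq_pow_sum, ← prod_mul_distrib]
        _ ≤ ∏ t, (s ^ (rset p Q t).card * n.choose s) :=
            prod_le_prod' fun t _ => card_supersets s (rset p Q t) (by omega)
        _ = _ := by rw [prod_mul_distrib, prod_pow_eq_pow_sum, prod_const, card_univ]
    rw [hc] at h4
    exact drop_pow _ _ n s (5 * s) c hs1 (by omega) h4
  have h3 : 𝒬.card ≤ n.choose q := by
    rw [hnV, ← card_univ, ← card_powersetCard]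
    exact card_le_card (filter_subset _ _)
  have h4 : 𝔽.card ^ Fintype.card T * n ^ (5 * s) ≤
      n.choose q * (s ^ (5 * s) * n.choose s ^ Fintype.card T) := by
    calc 𝔽.card ^ Fintype.card T * n ^ (5 * s) ≤ (∑ Q ∈ 𝒬, ∏ t, sup Q t) * n ^ (5 * s) :=
          Nat.mul_le_mul_right _ h1
      _ = ∑ Q ∈ 𝒬, (∏ t, sup Q t) * n ^ (5 * s) := sum_mul _ _ _
      _ ≤ ∑ Q ∈ 𝒬, s ^ (5 * s) * n.choose s ^ Fintype.card T := sum_le_sum h2
      _ = 𝒬.card * (s ^ (5 * s) * n.choose s ^ Fintype.card T) := by rw [sum_const, smul_eq_mul]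
      _ ≤ _ := Nat.mul_le_mul_right _ h3
  obtain ⟨d, hd⟩ : ∃ d, 5 * s = (q + 2 * s) + (s + d) := ⟨2 * s - q, by omega⟩
  have h5 := choose_bound n s q hqs hn
  have h6 : n ^ (q + 2 * s) * (𝔽.card ^ Fintype.card T * n ^ (s + d)) ≤
      n ^ (q + 2 * s) * (s ^ (s + d) * n.choose s ^ Fintype.card T) := by
    calc n ^ (q + 2 * s) * (𝔽.card ^ Fintype.card T * n ^ (s + d)) =
          𝔽.card ^ Fintype.card T * n ^ (5 * s) := by rw [hd, pow_add]; ring
      _ ≤ _ := h4
      _ = (n.choose q * s ^ (q + 2 * s)) * (s ^ (s + d) * n.choose s ^ Fintype.card T) := by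
          rw [hd, pow_add s]; ring
      _ ≤ _ := Nat.mul_le_mul_right _ h5
  have h7 := Nat.le_of_mul_le_mul_left h6 (by
    have : 0 < n := by omega
    positivity)
  exact drop_pow _ _ n s s d hs1 (by omega) h7

end Pool.Agent.H641R3.RG
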