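import Pool.Agent.H641R3.RG.Core

/-!
# Mixtures of many complete bipartite graphs: the counting argument
-/

set_option autoImplicit false

open Finset

namespace Pool.Agent.H641R3.RG

theorem mem_rset {V T : Type} [DecidableEq V] (p : V → V → T → Prop)
    [∀ v w t, Decidable (p v w t)] (Q : Finset V) (t : T) (v : V) :
    v ∈ rset p Q t ↔ v ∈ Q ∧ ∃ w ∈ Q, p v w t := by
  unfold rset
  rw [mem_filter]

theorem mono_count {n : ℕ} (q : Fin n → Fin n → Prop) (S : Finset (Fin n)) (m : Fin n → ℕ)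
    (h : ∀ u ∈ S, ∃ w, m w < m u ∧ q u w)
    [DecidablePred fun α : Fin n → Bool => ∀ u w, q u w → α u = α w] :
    ((univ : Finset (Fin n → Bool)).filter (fun α : Fin n → Bool =>
      ∀ u w, q u w → α u = α w)).card ≤ 2 ^ (n - S.card) := by
  classical
  have h1 : Fintype.card ({u // u ∉ S} → Bool) = 2 ^ (n - S.card) := by
    rw [Fintype.card_fun, Fintype.card_bool]
    congr 1
    rw [Fintype.card_subtype_compl, Fintype.card_fin, Fintype.card_coe]
  rw [← h1, ← card_univ]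
  apply card_le_card_of_injOn (fun α (u : {u // u ∉ S}) => α u.1)
    (fun _ _ => mem_coe.2 (mem_univ _))
  intro α hα β hβ hαβ
  have hα' := (mem_filter.1 (mem_coe.1 hα)).2
  have hβ' := (mem_filter.1 (mem_coe.1 hβ)).2
  have key : ∀ k : ℕ, ∀ u, m u = k → α u = β u := by
    intro k
    induction k using Nat.strong_induction_on with
    | _ k ih =>
      intro u hu
      by_cases hS : u ∈ S
      · obtain ⟨w, hw1, hw2⟩ := h u hS
        rw [hα' u w hw2, hβ' u w hw2]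
        exact ih (m w) (by omega) w rfl
      · exact congrFun hαβ ⟨u, hS⟩
  funext u
  exact key (m u) u rfl

/-- **Mixtures of complete bipartite graphs.** -/
theorem coreC {T : Type} [Fintype T] [DecidableEq T] (n g : ℕ)
    (p : Fin n → Fin n → T → Prop) [∀ v w t, Decidable (p v w t)] (hg : 1 ≤ g)
    (hs : 2 * g ≤ n) (hirr : ∀ v t, ¬ p v v t) (hsym : ∀ v w t, p v w t → p w v t)
    (huniq : ∀ v w t t', p v w t → p v w t' → t = t')
    (𝔽 : Finset (Fin n → Bool))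
    (hsize : ∀ α ∈ 𝔽, ∀ t, 225 * g ^ 4 * (((univ : Finset (Fin n)) ×ˢ (univ : Finset (Fin n))).filter
      (fun z => α z.1 = α z.2 ∧ p z.1 z.2 t)).card ≤ 2 * n ^ 2)
    (hmix : ∀ F : T → Fin n → Bool, (∀ t, F t ∈ 𝔽) → ∃ Q : Finset (Fin n), n ≤ g * Q.card ∧
      ∀ v ∈ Q, ∀ w ∈ Q, v ≠ w → ∃ t, p v w t ∧ F t v = F t w) :
    𝔽.card ^ (Fintype.card T) * 2 ^ n ≤ 2 ^ (n * Fintype.card T) := by
  classical
  set J := Fintype.card T with hJ
  set 𝒬 : Finset (Finset (Fin n)) := univ.filter (fun Q => n ≤ g * Q.card ∧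
    (∀ t, 225 * g ^ 4 * ((Q ×ˢ Q).filter (fun z => p z.1 z.2 t)).card ≤ 2 * n ^ 2) ∧
    ∀ v ∈ Q, ∀ w ∈ Q, v ≠ w → ∃ t, p v w t) with h𝒬
  let A : Finset (Fin n) → T → Finset (Fin n → Bool) := fun Q t =>
    univ.filter (fun α => ∀ u w, (u ∈ Q ∧ w ∈ Q ∧ p u w t) → α u = α w)
  have hsub : Fintype.piFinset (fun _ : T => 𝔽) ⊆
      𝒬.biUnion (fun Q => Fintype.piFinset (fun t => A Q t)) := by
    intro F hF
    rw [Fintype.mem_piFinset] at hF
    obtain ⟨Q, hQ1, hQ2⟩ := hmix F hF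
    have hkey : ∀ t, ∀ u w, (u ∈ Q ∧ w ∈ Q ∧ p u w t) → F t u = F t w := by
      rintro t u w ⟨hu, hw, hp⟩
      have hne : u ≠ w := by
        rintro rfl
        exact hirr u t hp
      obtain ⟨t', h1, h2⟩ := hQ2 u hu w hw hne
      rw [huniq u w t t' hp h1]
      exact h2
    rw [mem_biUnion]
    refine ⟨Q, ?_, ?_⟩
    · rw [h𝒬, mem_filter]
      refine ⟨mem_univ _, hQ1, fun t => ?_, fun v hv w hw hvw => ?_⟩
      · refine le_trans (Nat.mul_le_mul_left _ (card_le_card ?_)) (hsize _ (hF t) t)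
        intro z hz
        rw [mem_filter, mem_product] at hz
        rw [mem_filter]
        exact ⟨mem_product.2 ⟨mem_univ _, mem_univ _⟩,
          hkey t _ _ ⟨hz.1.1, hz.1.2, hz.2⟩, hz.2⟩
      · obtain ⟨t, h1, _⟩ := hQ2 v hv w hw hvw
        exact ⟨t, h1⟩
    · rw [Fintype.mem_piFinset]
      intro t
      exact mem_filter.2 ⟨mem_univ _, hkey t⟩
  have hσ : ∀ Q : Finset (Fin n), ∀ t, ∃ σ : ℕ, σ ≤ n ∧ (rset p Q t).card ≤ 2 * σ ∧
      (A Q t).card ≤ 2 ^ (n - σ) := by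
    intro Q t
    set S1 := (rset p Q t).filter (fun v => ∃ w ∈ Q, w < v ∧ p v w t) with hS1
    set S2 := (rset p Q t).filter (fun v => ∃ w ∈ Q, v < w ∧ p v w t) with hS2
    have h1 : (rset p Q t).card ≤ S1.card + S2.card := by
      refine le_trans (card_le_card ?_) (card_union_le S1 S2)
      intro v hv
      have hv' := hv
      rw [mem_rset] at hv
      obtain ⟨hv1, w, hw, hp⟩ := hv
      rcases lt_trichotomy v w with h | h | h
      · exact mem_union_right _ (mem_filter.2 ⟨hv', w, hw, h, hp⟩)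
      · subst h
        exact absurd hp (hirr v t)
      · exact mem_union_left _ (mem_filter.2 ⟨hv', w, hw, h, hp⟩)
    have hmem : ∀ v ∈ rset p Q t, v ∈ Q := by
      intro v hv
      rw [mem_rset] at hv
      exact hv.1
    have h2 : (A Q t).card ≤ 2 ^ (n - S1.card) := by
      apply mono_count (fun u w => u ∈ Q ∧ w ∈ Q ∧ p u w t) S1 (fun u => u.val)
      intro u hu
      rw [hS1, mem_filter] at hu
      obtain ⟨hu1, w, hw, hlt, hp⟩ := hu
      exact ⟨w, hlt, hmem u hu1, hw, hp⟩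
    have h3 : (A Q t).card ≤ 2 ^ (n - S2.card) := by
      apply mono_count (fun u w => u ∈ Q ∧ w ∈ Q ∧ p u w t) S2 (fun u => n - u.val)
      intro u hu
      rw [hS2, mem_filter] at hu
      obtain ⟨hu1, w, hw, hlt, hp⟩ := hu
      refine ⟨w, ?_, hmem u hu1, hw, hp⟩
      have h4 : u.val < w.val := hlt
      have h5 := w.isLt
      change n - w.val < n - u.val
      omega
    rcases le_total S1.card S2.card with h | h
    · exact ⟨S2.card, (card_le_univ _).trans (by rw [Fintype.card_fin]), by omega, h3⟩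
    · exact ⟨S1.card, (card_le_univ _).trans (by rw [Fintype.card_fin]), by omega, h2⟩
  choose σ hσ1 hσ2 hσ3 using hσ
  have h1 : 𝔽.card ^ J ≤ ∑ Q ∈ 𝒬, ∏ t, 2 ^ (n - σ Q t) := by
    calc 𝔽.card ^ J = (Fintype.piFinset (fun _ : T => 𝔽)).card := by
          rw [Fintype.card_piFinset, prod_const, card_univ]
      _ ≤ _ := card_le_card hsub
      _ ≤ _ := card_biUnion_le
      _ ≤ _ := by
          refine sum_le_sum fun Q _ => ?_
          rw [Fintype.card_piFinset]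
          exact prod_le_prod' fun t _ => hσ3 Q t
  have h2 : ∀ Q ∈ 𝒬, (∏ t, 2 ^ (n - σ Q t)) * 2 ^ (2 * n) ≤ 2 ^ (n * J) := by
    intro Q hQ
    rw [h𝒬, mem_filter] at hQ
    have h3 := rset_sum p n g hg hs hsym Q hQ.2.1 hQ.2.2.1 hQ.2.2.2
    have h4 : ∑ t, (rset p Q t).card ≤ 2 * ∑ t, σ Q t := by
      rw [mul_sum]
      exact sum_le_sum fun t _ => hσ2 Q t
    calc (∏ t, 2 ^ (n - σ Q t)) * 2 ^ (2 * n) ≤
          (∏ t, 2 ^ (n - σ Q t)) * 2 ^ (∑ t, σ Q t) :=
          Nat.mul_le_mul_left _ (Nat.pow_le_pow_right (by norm_num) (by omega))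
      _ = ∏ t : T, 2 ^ n := by
          rw [← prod_pow_eq_pow_sum, ← prod_mul_distrib]
          refine prod_congr rfl fun t _ => ?_
          rw [← pow_add, Nat.sub_add_cancel (hσ1 Q t)]
      _ = _ := by rw [prod_const, card_univ, ← pow_mul]
  have h3 : 𝒬.card ≤ 2 ^ n := by
    calc 𝒬.card ≤ (univ : Finset (Finset (Fin n))).card := card_le_card (filter_subset _ _)
      _ = 2 ^ n := by rw [card_univ, Fintype.card_finset, Fintype.card_fin]
  have h4 : 2 ^ n * (𝔽.card ^ J * 2 ^ n) ≤ 2 ^ n * 2 ^ (n * J) := by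
    calc 2 ^ n * (𝔽.card ^ J * 2 ^ n) = 𝔽.card ^ J * 2 ^ (2 * n) := by
          rw [two_mul n, pow_add]; ring
      _ ≤ (∑ Q ∈ 𝒬, ∏ t, 2 ^ (n - σ Q t)) * 2 ^ (2 * n) := Nat.mul_le_mul_right _ h1
      _ = ∑ Q ∈ 𝒬, (∏ t, 2 ^ (n - σ Q t)) * 2 ^ (2 * n) := sum_mul _ _ _
      _ ≤ ∑ Q ∈ 𝒬, 2 ^ (n * J) := sum_le_sum h2
      _ = 𝒬.card * 2 ^ (n * J) := by rw [sum_const, smul_eq_mul]
      _ ≤ _ := Nat.mul_le_mul_right _ h3
  exact Nat.le_of_mul_le_mul_left h4 (by positivity)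

end Pool.Agent.H641R3.RG
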