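import Mathlib

/-!
# Mixtures of many permutations: the counting argument
-/

set_option autoImplicit false

open Finset Nat

namespace Pool.Agent.H641R3.RG

/-- the permutations with prescribed values -/
theorem perm_count {h : ℕ} (D : Finset (Fin h)) (f : Fin h → Fin h) :
    ((univ : Finset (Equiv.Perm (Fin h))).filter (fun π => ∀ i ∈ D, π i = f i)).card ≤
      (h - D.card)! := by
  classical
  rcases ((univ : Finset (Equiv.Perm (Fin h))).filter
    (fun π => ∀ i ∈ D, π i = f i)).eq_empty_or_nonempty with h0 | ⟨π₀, h0⟩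
  · rw [h0, card_empty]
    exact Nat.zero_le _
  · rw [mem_filter] at h0
    have h1 : Fintype.card {g : Equiv.Perm (Fin h) // ∀ a, ¬ (a ∉ D) → g a = a} =
        (h - D.card)! := by
      rw [← Fintype.card_congr (Equiv.Perm.subtypeEquivSubtypePerm (fun a : Fin h => a ∉ D)),
        Fintype.card_perm]
      congr 1
      rw [Fintype.card_subtype_compl, Fintype.card_fin, Fintype.card_coe]
    rw [← h1, ← Finset.card_univ, ← card_map (⟨Subtype.val, Subtype.val_injective⟩ :
      {g : Equiv.Perm (Fin h) // ∀ a, ¬ (a ∉ D) → g a = a} ↪ Equiv.Perm (Fin h))]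
    apply card_le_card_of_injOn (fun π => π₀⁻¹ * π)
    · intro π hπ
      have hπ' : π ∈ (univ : Finset (Equiv.Perm (Fin h))).filter (fun π => ∀ i ∈ D, π i = f i) := hπ
      rw [mem_filter] at hπ'
      apply mem_coe.2
      rw [mem_map]
      refine ⟨⟨π₀⁻¹ * π, fun a ha => ?_⟩, mem_univ _, rfl⟩
      have ha' : a ∈ D := not_not.1 ha
      rw [Equiv.Perm.mul_apply, hπ'.2 a ha', ← h0.2 a ha']
      exact π₀.symm_apply_apply a
    · intro π _ π' _ hh
      exact mul_left_cancel hh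

theorem bern (y k : ℕ) : (y + 1) ^ k * (y - k) ≤ y ^ (k + 1) := by
  induction k with
  | zero => simp
  | succ k ih =>
    have h1 : (y + 1) * (y - (k + 1)) ≤ (y - k) * y := by
      rcases Nat.lt_or_ge y (k + 1) with h | h
      · rw [Nat.sub_eq_zero_of_le h.le]
        simp
      · obtain ⟨c, rfl⟩ := Nat.exists_eq_add_of_le h
        have e1 : k + 1 + c - (k + 1) = c := by omega
        have e2 : k + 1 + c - k = c + 1 := by omega
        rw [e1, e2]
        nlinarith
    calc (y + 1) ^ (k + 1) * (y - (k + 1)) = (y + 1) ^ k * ((y + 1) * (y - (k + 1))) := by ring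
      _ ≤ (y + 1) ^ k * ((y - k) * y) := Nat.mul_le_mul_left _ h1
      _ = ((y + 1) ^ k * (y - k)) * y := by ring
      _ ≤ y ^ (k + 1) * y := Nat.mul_le_mul_right _ ih
      _ = _ := by ring

theorem desc_bound (h : ℕ) : ∀ k ≤ h, h.descFactorial k * 2 ^ k ≤ (2 * h - k + 1) ^ k := by
  intro k
  induction k with
  | zero => intro _; simp
  | succ k ih =>
    intro hk
    have h1 := ih (by omega)
    have h2 := bern (2 * h - k) k
    have e1 : 2 * h - k - k = 2 * (h - k) := by omega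
    have e2 : 2 * h - (k + 1) + 1 = 2 * h - k := by omega
    rw [e1] at h2
    rw [e2]
    calc h.descFactorial (k + 1) * 2 ^ (k + 1) =
          (h.descFactorial k * 2 ^ k) * (2 * (h - k)) := by
            rw [Nat.descFactorial_succ]; ring
      _ ≤ (2 * h - k + 1) ^ k * (2 * (h - k)) := Nat.mul_le_mul_right _ h1
      _ ≤ _ := h2

theorem choose8 (h k : ℕ) (hk : k ≤ h) : h.choose k * 8 ^ k ≤ 9 ^ h := by
  have h1 : (8 + 1) ^ h = ∑ m ∈ range (h + 1), 8 ^ m * 1 ^ (h - m) * h.choose m := add_pow 8 1 h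
  have h2 : 8 ^ k * 1 ^ (h - k) * h.choose k ≤
      ∑ m ∈ range (h + 1), 8 ^ m * 1 ^ (h - m) * h.choose m :=
    single_le_sum (f := fun m => 8 ^ m * 1 ^ (h - m) * h.choose m) (fun _ _ => Nat.zero_le _)
      (mem_range.2 (by omega))
  rw [← h1, one_pow, mul_one, mul_comm] at h2
  exact h2

theorem numer (h : ℕ) (hh : 64 ≤ h) :
    h.choose (h - h / 64) * h.descFactorial (h - h / 64) * 64 ^ (h - h / 64) * 2 ^ (h / 2) ≤
      (63 * h) ^ (h - h / 64) := by
  set k := h - h / 64 with hk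
  set κ := h / 64 with hκ
  have hκk : k + κ = h := by omega
  have h1 := choose8 h k (by omega)
  have h2 := desc_bound h k (by omega)
  have h3 : 64 * (2 * h - k + 1) ≤ 66 * h := by omega
  have h4 : h.descFactorial k * 2 ^ k * 64 ^ k ≤ (66 * h) ^ k := by
    calc h.descFactorial k * 2 ^ k * 64 ^ k ≤ (2 * h - k + 1) ^ k * 64 ^ k :=
          Nat.mul_le_mul_right _ h2
      _ = (64 * (2 * h - k + 1)) ^ k := by rw [mul_pow]; ring
      _ ≤ _ := Nat.pow_le_pow_left h3 _
  have h5 : 9 ^ h * 2 ^ (h / 2) ≤ 15 ^ k := by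
    have h6 : 9 ^ h * 2 ^ (h / 2 + 4 * κ) ≤ 15 ^ h := by
      have h7 : (9 ^ h * 2 ^ (h / 2 + 4 * κ)) ^ 16 ≤ (15 ^ h) ^ 16 := by
        calc (9 ^ h * 2 ^ (h / 2 + 4 * κ)) ^ 16 = (9 ^ 16) ^ h * 2 ^ ((h / 2 + 4 * κ) * 16) := by
              rw [mul_pow, ← pow_mul, ← pow_mul, ← pow_mul, mul_comm h 16]
          _ ≤ (9 ^ 16) ^ h * 2 ^ (9 * h) :=
              Nat.mul_le_mul_left _ (Nat.pow_le_pow_right (by norm_num) (by omega))
          _ = (9 ^ 16 * 2 ^ 9) ^ h := by rw [mul_pow, ← pow_mul 2 9 h]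
          _ ≤ (15 ^ 16) ^ h := Nat.pow_le_pow_left (by norm_num) _
          _ = _ := by rw [← pow_mul, ← pow_mul, mul_comm]
      exact (Nat.pow_le_pow_iff_left (by norm_num)).1 h7
    have h8 : 15 ^ κ * (9 ^ h * 2 ^ (h / 2)) ≤ 15 ^ κ * 15 ^ k := by
      calc 15 ^ κ * (9 ^ h * 2 ^ (h / 2)) ≤ (2 ^ 4) ^ κ * (9 ^ h * 2 ^ (h / 2)) :=
            Nat.mul_le_mul_right _ (Nat.pow_le_pow_left (by norm_num) _)
        _ = 9 ^ h * 2 ^ (h / 2 + 4 * κ) := by rw [pow_add, ← pow_mul]; ring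
        _ ≤ 15 ^ h := h6
        _ = 15 ^ κ * 15 ^ k := by rw [← pow_add, ← hκk, add_comm]
    exact Nat.le_of_mul_le_mul_left h8 (by positivity)
  have h9 : (8 ^ k * 2 ^ k) * (h.choose k * h.descFactorial k * 64 ^ k * 2 ^ (h / 2)) ≤
      (8 ^ k * 2 ^ k) * (63 * h) ^ k := by
    calc (8 ^ k * 2 ^ k) * (h.choose k * h.descFactorial k * 64 ^ k * 2 ^ (h / 2)) =
          (h.choose k * 8 ^ k) * (h.descFactorial k * 2 ^ k * 64 ^ k) * 2 ^ (h / 2) := by ring
      _ ≤ 9 ^ h * (66 * h) ^ k * 2 ^ (h / 2) :=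
          Nat.mul_le_mul_right _ (Nat.mul_le_mul h1 h4)
      _ = (9 ^ h * 2 ^ (h / 2)) * (66 * h) ^ k := by ring
      _ ≤ 15 ^ k * (66 * h) ^ k := Nat.mul_le_mul_right _ h5
      _ = (990 * h) ^ k := by rw [← mul_pow]; congr 1; ring
      _ ≤ (1008 * h) ^ k := Nat.pow_le_pow_left (Nat.mul_le_mul_right _ (by norm_num)) _
      _ = _ := by rw [← mul_pow, ← mul_pow]; congr 1; ring
  exact Nat.le_of_mul_le_mul_left h9 (by positivity)

/-- **Mixtures of permutations.** -/
theorem coreH {T : Type} [Fintype T] [DecidableEq T] (h : ℕ) (hh : 64 ≤ h)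
    (p : Fin h → Fin h → T → Prop) [∀ i j t, Decidable (p i j t)]
    (huniq : ∀ i j t t', p i j t → p i j t' → t = t')
    (𝔽 : Finset (Equiv.Perm (Fin h)))
    (hsize : ∀ π ∈ 𝔽, ∀ t, 64 * (univ.filter (fun i => p i (π i) t)).card ≤ h)
    (hmix : ∀ F : T → Equiv.Perm (Fin h), (∀ t, F t ∈ 𝔽) →
      ∃ (I : Finset (Fin h)) (f : Fin h → Fin h), h - h / 64 ≤ I.card ∧
        Set.InjOn f (I : Set (Fin h)) ∧ ∀ i ∈ I, ∃ t, p i (f i) t ∧ F t i = f i) :
    𝔽.card ^ Fintype.card T * 2 ^ (h / 2) ≤ (h !) ^ Fintype.card T := by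
  classical
  set k := h - h / 64 with hk
  let Idx : Type := Σ I : {I : Finset (Fin h) // I.card = k}, (I.1 ↪ Fin h)
  let g : Idx → Fin h → Fin h := fun q i => if hi : i ∈ q.1.1 then q.2 ⟨i, hi⟩ else i
  let D : Idx → T → Finset (Fin h) := fun q t => q.1.1.filter (fun i => p i (g q i) t)
  set 𝒬 : Finset Idx := univ.filter (fun q => (∀ t, 64 * (D q t).card ≤ h) ∧
    ∀ i ∈ q.1.1, ∃ t, p i (g q i) t) with h𝒬
  have hIdx : Fintype.card Idx = h.choose k * h.descFactorial k := by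
    change Fintype.card (Σ I : {I : Finset (Fin h) // I.card = k}, (I.1 ↪ Fin h)) = _
    rw [Fintype.card_sigma]
    have h1 : ∀ I : {I : Finset (Fin h) // I.card = k}, Fintype.card (I.1 ↪ Fin h) =
        h.descFactorial k := by
      intro I
      rw [Fintype.card_embedding_eq, Fintype.card_fin, Fintype.card_coe, I.2]
    rw [sum_congr rfl (fun I _ => h1 I), sum_const, Finset.card_univ, Fintype.card_finset_len,
      Fintype.card_fin, smul_eq_mul]
  have hsub : Fintype.piFinset (fun _ : T => 𝔽) ⊆ 𝒬.biUnion (fun q => Fintype.piFinset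
      (fun t => univ.filter (fun π : Equiv.Perm (Fin h) => ∀ i ∈ D q t, π i = g q i))) := by
    intro F hF
    rw [Fintype.mem_piFinset] at hF
    obtain ⟨I₀, f, hI0, hf, hcov⟩ := hmix F hF
    obtain ⟨I, hII, hIc⟩ := exists_subset_card_eq hI0
    let e : I ↪ Fin h := ⟨fun i => f i.1, fun i j hij =>
      Subtype.ext (hf (mem_coe.2 (hII i.2)) (mem_coe.2 (hII j.2)) hij)⟩
    let q : Idx := ⟨⟨I, hIc⟩, e⟩
    have hg : ∀ i ∈ I, g q i = f i := by
      intro i hi
      change (if hi : i ∈ I then e ⟨i, hi⟩ else i) = f i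
      rw [dif_pos hi]
      rfl
    have hD : ∀ t, ∀ i ∈ D q t, F t i = f i ∧ i ∈ I ∧ p i (f i) t := by
      intro t i hi
      have hi' : i ∈ I.filter (fun i => p i (g q i) t) := hi
      rw [mem_filter] at hi'
      have h1 := hi'.2
      rw [hg i hi'.1] at h1
      obtain ⟨t', h2, h3⟩ := hcov i (hII hi'.1)
      have h4 := huniq i (f i) t t' h1 h2
      subst h4
      exact ⟨h3, hi'.1, h1⟩
    rw [mem_biUnion]
    refine ⟨q, ?_, ?_⟩
    · rw [h𝒬, mem_filter]
      refine ⟨mem_univ _, fun t => ?_, fun i hi => ?_⟩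
      · refine le_trans (Nat.mul_le_mul_left _ (card_le_card ?_)) (hsize _ (hF t) t)
        intro i hi
        obtain ⟨h1, _, h3⟩ := hD t i hi
        rw [mem_filter, h1]
        exact ⟨mem_univ _, h3⟩
      · obtain ⟨t, h1, _⟩ := hcov i (hII hi)
        exact ⟨t, by rw [hg i hi]; exact h1⟩
    · rw [Fintype.mem_piFinset]
      intro t
      rw [mem_filter]
      refine ⟨mem_univ _, fun i hi => ?_⟩
      obtain ⟨h1, h2, _⟩ := hD t i hi
      rw [h1, hg i h2]
  have h1 : 𝔽.card ^ Fintype.card T ≤ ∑ q ∈ 𝒬, ∏ t, (h - (D q t).card)! := by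
    calc 𝔽.card ^ Fintype.card T = (Fintype.piFinset (fun _ : T => 𝔽)).card := by
          rw [Fintype.card_piFinset, prod_const, Finset.card_univ]
      _ ≤ _ := card_le_card hsub
      _ ≤ ∑ q ∈ 𝒬, (Fintype.piFinset (fun t => univ.filter
            (fun π : Equiv.Perm (Fin h) => ∀ i ∈ D q t, π i = g q i))).card := card_biUnion_le
      _ ≤ _ := by
          refine sum_le_sum fun q _ => ?_
          rw [Fintype.card_piFinset]
          exact prod_le_prod' fun t _ => perm_count (D q t) (g q)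
  have h2 : ∀ q ∈ 𝒬, (∏ t, (h - (D q t).card)!) * (63 * h) ^ k ≤
      64 ^ k * (h !) ^ Fintype.card T := by
    intro q hq
    rw [h𝒬, mem_filter] at hq
    obtain ⟨_, hq1, hq2⟩ := hq
    have hsum : ∑ t, (D q t).card = k := by
      rw [← q.1.2, ← card_biUnion]
      · congr 1
        ext i
        rw [mem_biUnion]
        constructor
        · rintro ⟨t, _, hi⟩
          exact (mem_filter.1 hi).1
        · intro hi
          obtain ⟨t, ht⟩ := hq2 i hi
          exact ⟨t, mem_univ _, mem_filter.2 ⟨hi, ht⟩⟩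
      · intro t _ t' _ htt
        change Disjoint (D q t) (D q t')
        rw [disjoint_left]
        intro i hi hi'
        exact htt (huniq _ _ _ _ (mem_filter.1 hi).2 (mem_filter.1 hi').2)
    have h3 : ∀ t, (h - (D q t).card)! * (63 * h) ^ (D q t).card ≤
        64 ^ (D q t).card * h ! := by
      intro t
      have h4 := hq1 t
      have h5 := Nat.factorial_mul_pow_sub_le_factorial (show h - (D q t).card ≤ h by omega)
      rw [show h - (h - (D q t).card) = (D q t).card by omega] at h5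
      calc (h - (D q t).card)! * (63 * h) ^ (D q t).card ≤
            (h - (D q t).card)! * (64 * (h - (D q t).card)) ^ (D q t).card :=
            Nat.mul_le_mul_left _ (Nat.pow_le_pow_left (by omega) _)
        _ = 64 ^ (D q t).card * ((h - (D q t).card)! * (h - (D q t).card) ^ (D q t).card) := by
            rw [mul_pow]; ring
        _ ≤ _ := Nat.mul_le_mul_left _ h5
    calc (∏ t, (h - (D q t).card)!) * (63 * h) ^ k =
          ∏ t, ((h - (D q t).card)! * (63 * h) ^ (D q t).card) := by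
            rw [prod_mul_distrib, prod_pow_eq_pow_sum, hsum]
      _ ≤ ∏ t, (64 ^ (D q t).card * h !) := prod_le_prod' fun t _ => h3 t
      _ = _ := by rw [prod_mul_distrib, prod_pow_eq_pow_sum, hsum, prod_const, Finset.card_univ]
  have h3 : 𝔽.card ^ Fintype.card T * (63 * h) ^ k ≤
      (h.choose k * h.descFactorial k) * (64 ^ k * (h !) ^ Fintype.card T) := by
    calc 𝔽.card ^ Fintype.card T * (63 * h) ^ k ≤
          (∑ q ∈ 𝒬, ∏ t, (h - (D q t).card)!) * (63 * h) ^ k := Nat.mul_le_mul_right _ h1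
      _ = ∑ q ∈ 𝒬, (∏ t, (h - (D q t).card)!) * (63 * h) ^ k := sum_mul _ _ _
      _ ≤ ∑ q ∈ 𝒬, 64 ^ k * (h !) ^ Fintype.card T := sum_le_sum h2
      _ = 𝒬.card * (64 ^ k * (h !) ^ Fintype.card T) := by rw [sum_const, smul_eq_mul]
      _ ≤ _ := by
          refine Nat.mul_le_mul_right _ ?_
          rw [← hIdx, ← Finset.card_univ]
          exact card_le_card (filter_subset _ _)
  have h4 := numer h hh
  rw [← hk] at h4
  have h5 : (63 * h) ^ k * (𝔽.card ^ Fintype.card T * 2 ^ (h / 2)) ≤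
      (63 * h) ^ k * (h !) ^ Fintype.card T := by
    calc (63 * h) ^ k * (𝔽.card ^ Fintype.card T * 2 ^ (h / 2)) =
          (𝔽.card ^ Fintype.card T * (63 * h) ^ k) * 2 ^ (h / 2) := by ring
      _ ≤ ((h.choose k * h.descFactorial k) * (64 ^ k * (h !) ^ Fintype.card T)) * 2 ^ (h / 2) :=
          Nat.mul_le_mul_right _ h3
      _ = (h.choose k * h.descFactorial k * 64 ^ k * 2 ^ (h / 2)) * (h !) ^ Fintype.card T := by
          ring
      _ ≤ _ := Nat.mul_le_mul_right _ h4
  exact Nat.le_of_mul_le_mul_left h5 (by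
    have : 0 < 63 * h := by omega
    positivity)

end Pool.Agent.H641R3.RG
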