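import Mathlib

/-!
# Mixtures of many assignments: the counting argument
-/

set_option autoImplicit false

open Finset

namespace Pool.Agent.H641R3.RG

theorem pow3 (c : ℕ) (hc : 1 ≤ c) : (c + 1) ^ c ≤ 3 * c ^ c := by
  have hc0 : (0 : ℝ) < c := by exact_mod_cast hc
  have h1 : (1 + 1 / (c : ℝ)) ^ c ≤ 3 := by
    calc (1 + 1 / (c : ℝ)) ^ c ≤ (Real.exp (1 / (c : ℝ))) ^ c := by
          apply pow_le_pow_left₀ (by positivity)
          have := Real.add_one_le_exp (1 / (c : ℝ))
          linarith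
      _ = Real.exp 1 := by
          rw [← Real.exp_nat_mul]
          congr 1
          field_simp
      _ ≤ 3 := by
          have := Real.exp_one_lt_d9
          linarith
  have h2 : ((c : ℝ) + 1) ^ c ≤ 3 * (c : ℝ) ^ c := by
    have h3 : (c : ℝ) + 1 = (1 + 1 / (c : ℝ)) * c := by field_simp
    rw [h3, mul_pow]
    exact mul_le_mul_of_nonneg_right h1 (by positivity)
  exact_mod_cast h2

theorem chooseb (M k b : ℕ) (hk : k ≤ M) : M.choose k * b ^ (M - k) ≤ (b + 1) ^ M := by
  have h1 : (b + 1) ^ M = ∑ m ∈ range (M + 1), b ^ m * 1 ^ (M - m) * M.choose m := add_pow b 1 M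
  have h2 : b ^ (M - k) * 1 ^ (M - (M - k)) * M.choose (M - k) ≤
      ∑ m ∈ range (M + 1), b ^ m * 1 ^ (M - m) * M.choose m :=
    single_le_sum (f := fun m => b ^ m * 1 ^ (M - m) * M.choose m) (fun _ _ => Nat.zero_le _)
      (mem_range.2 (by omega))
  rw [← h1, one_pow, mul_one, Nat.choose_symm hk, mul_comm] at h2
  exact h2

theorem choose_main (n : ℕ) : (832 * n).choose n ≤ 2496 ^ n := by
  have h1 := chooseb (832 * n) n 832 (by omega)
  have h2 : (832 + 1) ^ (832 * n) ≤ 2496 ^ n * 832 ^ (832 * n - n) := by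
    calc (832 + 1) ^ (832 * n) = ((832 + 1) ^ 832) ^ n := by rw [← pow_mul]
      _ ≤ (3 * 832 ^ 832) ^ n := Nat.pow_le_pow_left (pow3 832 (by norm_num)) _
      _ = 3 ^ n * 832 ^ (832 * n) := by rw [mul_pow, ← pow_mul]
      _ = 3 ^ n * (832 ^ n * 832 ^ (832 * n - n)) := by
          rw [← pow_add, Nat.add_sub_cancel' (by omega)]
      _ = (3 * 832) ^ n * 832 ^ (832 * n - n) := by rw [← mul_assoc, ← mul_pow]
  exact Nat.le_of_mul_le_mul_right (h1.trans h2) (by positivity)

theorem choose_small (n : ℕ) : (832 * n).choose (n / 32) ≤ 2 ^ n := by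
  set k := n / 32 with hk
  obtain ⟨c, hc⟩ : ∃ c : ℕ, c = 26624 := ⟨26624, rfl⟩
  have h1 := chooseb (832 * n) k c (by omega)
  have h2 : (c + 1) ^ (832 * n) * c ^ k ≤ 2 ^ n * c ^ (832 * n) := by
    have h3 : ((c + 1) ^ (832 * n) * c ^ k) ^ 32 ≤ (2 ^ n * c ^ (832 * n)) ^ 32 := by
      calc ((c + 1) ^ (832 * n) * c ^ k) ^ 32 = ((c + 1) ^ c) ^ n * c ^ (k * 32) := by
            rw [mul_pow, ← pow_mul, ← pow_mul, ← pow_mul]
            congr 2
            rw [hc]; ring
        _ ≤ (3 * c ^ c) ^ n * c ^ n :=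
            Nat.mul_le_mul (Nat.pow_le_pow_left (pow3 c (by omega)) _)
              (Nat.pow_le_pow_right (by omega) (by omega))
        _ = (3 * c) ^ n * c ^ (c * n) := by rw [mul_pow, mul_pow, ← pow_mul]; ring
        _ ≤ (2 ^ 32) ^ n * c ^ (c * n) :=
            Nat.mul_le_mul_right _ (Nat.pow_le_pow_left (by rw [hc]; norm_num) _)
        _ = _ := by
            rw [mul_pow, ← pow_mul, ← pow_mul, ← pow_mul]
            congr 2
            · ring
            · rw [hc]; ring
    exact (Nat.pow_le_pow_iff_left (by norm_num)).1 h3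
  have h4 : (832 * n).choose k * c ^ (832 * n) ≤ 2 ^ n * c ^ (832 * n) := by
    calc (832 * n).choose k * c ^ (832 * n) =
          ((832 * n).choose k * c ^ (832 * n - k)) * c ^ k := by
            rw [mul_assoc, ← pow_add, Nat.sub_add_cancel (by omega)]
      _ ≤ (c + 1) ^ (832 * n) * c ^ k := Nat.mul_le_mul_right _ h1
      _ ≤ _ := h2
  exact Nat.le_of_mul_le_mul_right h4 (by
    have : 0 < c := by omega
    positivity)

/-- A sparse system of triples: few triples lie in a small set. -/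
theorem exists_triples (n : ℕ) (hn : 1 ≤ n) : ∃ e : Fin (832 * n) → Fin 3 → Fin n,
    ∀ U : Finset (Fin n), 103 * U.card ≤ 6 * n →
      (univ.filter (fun i => ∀ r, e i r ∈ U)).card < n := by
  classical
  by_contra hcon
  push Not at hcon
  set 𝒰 : Finset (Finset (Fin n)) := univ.filter (fun U => 103 * U.card ≤ 6 * n) with h𝒰
  have hsub : (univ : Finset (Fin (832 * n) → Fin 3 → Fin n)) ⊆
      (𝒰 ×ˢ (univ : Finset (Fin (832 * n))).powersetCard n).biUnion (fun q =>
        Fintype.piFinset (fun i => Fintype.piFinset (fun _ : Fin 3 =>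
          if i ∈ q.2 then q.1 else (univ : Finset (Fin n))))) := by
    intro e _
    obtain ⟨U, hU1, hU2⟩ := hcon e
    obtain ⟨I, hI1, hI2⟩ := exists_subset_card_eq hU2
    rw [mem_biUnion]
    refine ⟨(U, I), ?_, ?_⟩
    · rw [mem_product, h𝒰, mem_filter, mem_powersetCard]
      exact ⟨⟨mem_univ _, hU1⟩, subset_univ _, hI2⟩
    · rw [Fintype.mem_piFinset]
      intro i
      rw [Fintype.mem_piFinset]
      intro r
      by_cases hi : i ∈ I
      · rw [if_pos hi]
        exact (mem_filter.1 (hI1 hi)).2 r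
      · rw [if_neg hi]
        exact mem_univ _
  have h1 := (card_le_card hsub).trans card_biUnion_le
  have hcard : (univ : Finset (Fin (832 * n) → Fin 3 → Fin n)).card = (n ^ 3) ^ (832 * n) := by
    rw [card_univ, Fintype.card_fun, Fintype.card_fun, Fintype.card_fin, Fintype.card_fin,
      Fintype.card_fin]
  have h2 : ∀ q ∈ 𝒰 ×ˢ (univ : Finset (Fin (832 * n))).powersetCard n,
      103 ^ (3 * n) * (Fintype.piFinset (fun i => Fintype.piFinset (fun _ : Fin 3 =>
          if i ∈ q.2 then q.1 else (univ : Finset (Fin n))))).card ≤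
        216 ^ n * (n ^ 3) ^ (832 * n) := by
    intro q hq
    rw [mem_product, h𝒰, mem_filter, mem_powersetCard] at hq
    obtain ⟨⟨_, hU⟩, _, hI⟩ := hq
    have h3 : (Fintype.piFinset (fun i => Fintype.piFinset (fun _ : Fin 3 =>
          if i ∈ q.2 then q.1 else (univ : Finset (Fin n))))).card =
        (q.1.card ^ 3) ^ n * (n ^ 3) ^ (832 * n - n) := by
      rw [Fintype.card_piFinset]
      have h4 : ∀ i : Fin (832 * n), (Fintype.piFinset (fun _ : Fin 3 =>
          if i ∈ q.2 then q.1 else (univ : Finset (Fin n)))).card =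
          if i ∈ q.2 then q.1.card ^ 3 else n ^ 3 := by
        intro i
        rw [Fintype.card_piFinset, prod_const, card_univ, Fintype.card_fin]
        by_cases hi : i ∈ q.2
        · rw [if_pos hi, if_pos hi]
        · rw [if_neg hi, if_neg hi, card_univ, Fintype.card_fin]
      rw [prod_congr rfl (fun i _ => h4 i), prod_ite, prod_const, prod_const]
      have h5 : (univ.filter (fun i => i ∈ q.2)).card = n :=
        (congrArg Finset.card (by ext i; simp)).trans hI
      have h6 : (univ.filter (fun i => i ∉ q.2)).card = 832 * n - n := by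
        have h7 := card_filter_add_card_filter_not (s := (univ : Finset (Fin (832 * n))))
          (fun i => i ∈ q.2)
        rw [h5, card_univ, Fintype.card_fin] at h7
        omega
      rw [h5, h6]
    rw [h3]
    calc 103 ^ (3 * n) * ((q.1.card ^ 3) ^ n * (n ^ 3) ^ (832 * n - n)) =
          ((103 * q.1.card) ^ 3) ^ n * (n ^ 3) ^ (832 * n - n) := by
            rw [mul_pow, mul_pow, ← pow_mul 103 3 n]; ring
      _ ≤ ((6 * n) ^ 3) ^ n * (n ^ 3) ^ (832 * n - n) :=
          Nat.mul_le_mul_right _ (Nat.pow_le_pow_left (Nat.pow_le_pow_left hU _) _)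
      _ = 216 ^ n * ((n ^ 3) ^ n * (n ^ 3) ^ (832 * n - n)) := by
          rw [mul_pow 6 n 3, mul_pow]; norm_num; ring
      _ = _ := by rw [← pow_add, Nat.add_sub_cancel' (by omega)]
  have h4 : 103 ^ (3 * n) * (n ^ 3) ^ (832 * n) ≤
      (2 ^ n * 2496 ^ n) * (216 ^ n * (n ^ 3) ^ (832 * n)) := by
    rw [hcard] at h1
    calc 103 ^ (3 * n) * (n ^ 3) ^ (832 * n) ≤ 103 ^ (3 * n) *
          ∑ q ∈ 𝒰 ×ˢ (univ : Finset (Fin (832 * n))).powersetCard n,
            (Fintype.piFinset (fun i => Fintype.piFinset (fun _ : Fin 3 =>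
              if i ∈ q.2 then q.1 else (univ : Finset (Fin n))))).card :=
          Nat.mul_le_mul_left _ h1
      _ = ∑ q ∈ 𝒰 ×ˢ (univ : Finset (Fin (832 * n))).powersetCard n, 103 ^ (3 * n) *
            (Fintype.piFinset (fun i => Fintype.piFinset (fun _ : Fin 3 =>
              if i ∈ q.2 then q.1 else (univ : Finset (Fin n))))).card := mul_sum _ _ _
      _ ≤ ∑ q ∈ 𝒰 ×ˢ (univ : Finset (Fin (832 * n))).powersetCard n,
            216 ^ n * (n ^ 3) ^ (832 * n) := sum_le_sum h2
      _ = (𝒰.card * (832 * n).choose n) * (216 ^ n * (n ^ 3) ^ (832 * n)) := by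
          rw [sum_const, smul_eq_mul, card_product, card_powersetCard, card_univ,
            Fintype.card_fin]
      _ ≤ _ := by
          refine Nat.mul_le_mul_right _ (Nat.mul_le_mul ?_ (choose_main n))
          calc 𝒰.card ≤ (univ : Finset (Finset (Fin n))).card := card_le_card (filter_subset _ _)
            _ = 2 ^ n := by rw [card_univ, Fintype.card_finset, Fintype.card_fin]
  have h5 : (103 ^ 3) ^ n * (n ^ 3) ^ (832 * n) ≤ 1078272 ^ n * (n ^ 3) ^ (832 * n) := by
    calc (103 ^ 3) ^ n * (n ^ 3) ^ (832 * n) = 103 ^ (3 * n) * (n ^ 3) ^ (832 * n) := by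
          rw [← pow_mul]
      _ ≤ _ := h4
      _ = (2 * 2496 * 216) ^ n * (n ^ 3) ^ (832 * n) := by
          rw [← mul_assoc, ← mul_pow, ← mul_pow]
  have h6 := Nat.le_of_mul_le_mul_right h5 (by positivity)
  have h7 : 1078272 ^ n < (103 ^ 3) ^ n := Nat.pow_lt_pow_left (by norm_num) (by omega)
  omega

/-- the assignments with prescribed values -/
theorem agree_count {n : ℕ} (R : Finset (Fin n)) (β : Fin n → Bool) :
    ((univ : Finset (Fin n → Bool)).filter (fun α => ∀ u ∈ R, α u = β u)).card =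
      2 ^ (n - R.card) := by
  classical
  have h1 : (univ : Finset (Fin n → Bool)).filter (fun α => ∀ u ∈ R, α u = β u) =
      Fintype.piFinset (fun u => if u ∈ R then {β u} else (univ : Finset Bool)) := by
    ext α
    rw [mem_filter, Fintype.mem_piFinset]
    constructor
    · rintro ⟨_, h⟩ u
      by_cases hu : u ∈ R
      · rw [if_pos hu, mem_singleton]
        exact h u hu
      · rw [if_neg hu]
        exact mem_univ _
    · intro h
      refine ⟨mem_univ _, fun u hu => ?_⟩
      have h2 := h u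
      rw [if_pos hu, mem_singleton] at h2
      exact h2
  rw [h1, Fintype.card_piFinset]
  have h2 : ∀ u : Fin n, (if u ∈ R then {β u} else (univ : Finset Bool)).card =
      if u ∈ R then 1 else 2 := by
    intro u
    by_cases hu : u ∈ R
    · rw [if_pos hu, if_pos hu, card_singleton]
    · rw [if_neg hu, if_neg hu, card_univ, Fintype.card_bool]
  rw [prod_congr rfl (fun u _ => h2 u), prod_ite, prod_const_one, one_mul, prod_const]
  congr 1
  have h5 : (univ.filter (fun i => i ∈ R)).card = R.card := by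
    congr 1
    ext i
    simp
  have h7 := card_filter_add_card_filter_not (s := (univ : Finset (Fin n))) (fun i => i ∈ R)
  rw [h5, card_univ, Fintype.card_fin] at h7
  omega

/-- **Mixtures of assignments.** -/
theorem coreS {T : Type} [Fintype T] [DecidableEq T] (hT : Fintype.card T = 208) (n N : ℕ)
    (hn : 1 ≤ n) (e : Fin (832 * n) → Fin 3 → Fin n)
    (he : ∀ U : Finset (Fin n), 103 * U.card ≤ 6 * n →
      (univ.filter (fun i => ∀ r, e i r ∈ U)).card < n)
    (vr : (Fin n → Bool) → Fin (832 * n) → Fin N)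
    (hvr : ∀ α β i, (∀ r, α (e i r) = β (e i r)) → vr α i = vr β i)
    (X : T → Finset (Fin N)) (hX : ∀ v t t', v ∈ X t → v ∈ X t' → t = t')
    (𝔽 : Finset (Fin n → Bool))
    (hsize : ∀ α ∈ 𝔽, ∀ t, 103 * (univ.filter (fun i => vr α i ∈ X t)).card ≤ 832 * n)
    (hmix : ∀ F : T → Fin n → Bool, (∀ t, F t ∈ 𝔽) → ∃ (β : Fin n → Bool)
      (B : Finset (Fin (832 * n))), B.card ≤ n / 32 ∧
        ∀ i, i ∉ B → ∃ t, vr β i ∈ X t ∧ ∀ r, F t (e i r) = β (e i r)) :
    𝔽.card ^ 208 * 2 ^ n ≤ 2 ^ (n * 208) := by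
  classical
  set Q0 : Finset ((Fin n → Bool) × Finset (Fin (832 * n))) :=
    (univ : Finset (Fin n → Bool)) ×ˢ (univ : Finset (Fin (832 * n))).powersetCard (n / 32)
    with hQ0
  let mm : (Fin n → Bool) × Finset (Fin (832 * n)) → T → Finset (Fin (832 * n)) :=
    fun q t => univ.filter (fun i => i ∉ q.2 ∧ vr q.1 i ∈ X t)
  let R : (Fin n → Bool) × Finset (Fin (832 * n)) → T → Finset (Fin n) :=
    fun q t => univ.filter (fun u => ∃ i ∈ mm q t, ∃ r, e i r = u)
  set 𝒬 := Q0.filter (fun q => (∀ t, 103 * (mm q t).card ≤ 832 * n) ∧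
    ∀ i, i ∉ q.2 → ∃ t, vr q.1 i ∈ X t) with h𝒬
  have hsub : Fintype.piFinset (fun _ : T => 𝔽) ⊆ 𝒬.biUnion (fun q => Fintype.piFinset
      (fun t => univ.filter (fun α : Fin n → Bool => ∀ u ∈ R q t, α u = q.1 u))) := by
    intro F hF
    rw [Fintype.mem_piFinset] at hF
    obtain ⟨β, B₀, hB0, hB⟩ := hmix F hF
    obtain ⟨B, hBB, hBc⟩ := exists_superset_card_eq hB0 (by
      rw [Fintype.card_fin]; omega)
    have hkey : ∀ i, i ∉ B → ∀ t, vr β i ∈ X t → ∀ r, F t (e i r) = β (e i r) := by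
      intro i hi t ht
      obtain ⟨t', h1, h2⟩ := hB i (fun h => hi (hBB h))
      rw [hX _ t t' ht h1]
      exact h2
    rw [mem_biUnion]
    refine ⟨(β, B), ?_, ?_⟩
    · rw [h𝒬, mem_filter, hQ0, mem_product, mem_powersetCard]
      refine ⟨⟨mem_univ _, subset_univ _, hBc⟩, fun t => ?_, fun i hi => ?_⟩
      · refine le_trans (Nat.mul_le_mul_left _ (card_le_card ?_)) (hsize _ (hF t) t)
        intro i hi
        have hi' : i ∉ B ∧ vr β i ∈ X t := (mem_filter.1 hi).2
        rw [mem_filter, hvr (F t) β i (hkey i hi'.1 t hi'.2)]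
        exact ⟨mem_univ _, hi'.2⟩
      · obtain ⟨t, h1, _⟩ := hB i (fun h => hi (hBB h))
        exact ⟨t, h1⟩
    · rw [Fintype.mem_piFinset]
      intro t
      rw [mem_filter]
      refine ⟨mem_univ _, fun u hu => ?_⟩
      obtain ⟨i, hi, r, rfl⟩ := (mem_filter.1 hu).2
      have hi' : i ∉ B ∧ vr β i ∈ X t := (mem_filter.1 hi).2
      exact hkey i hi'.1 t hi'.2 r
  have h1 : 𝔽.card ^ 208 ≤ ∑ q ∈ 𝒬, ∏ t, 2 ^ (n - (R q t).card) := by
    calc 𝔽.card ^ 208 = (Fintype.piFinset (fun _ : T => 𝔽)).card := by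
          rw [Fintype.card_piFinset, prod_const, card_univ, hT]
      _ ≤ _ := card_le_card hsub
      _ ≤ _ := card_biUnion_le
      _ = _ := by
          refine sum_congr rfl fun q _ => ?_
          rw [Fintype.card_piFinset]
          exact prod_congr rfl fun t _ => agree_count (R q t) q.1
  have hR : ∀ q ∈ 𝒬, 3 * n ≤ ∑ t, (R q t).card := by
    intro q hq
    rw [h𝒬, mem_filter, hQ0, mem_product, mem_powersetCard] at hq
    obtain ⟨⟨_, _, hBc⟩, hq1, hq2⟩ := hq
    set 𝔹 : Finset T := univ.filter (fun t => n ≤ (mm q t).card) with h𝔹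
    have a1 : 832 * n - n / 32 ≤ ∑ t, (mm q t).card := by
      have a2 : (univ : Finset (Fin (832 * n))) ⊆ q.2 ∪ univ.biUnion (mm q) := by
        intro i _
        by_cases hi : i ∈ q.2
        · exact mem_union_left _ hi
        · obtain ⟨t, ht⟩ := hq2 i hi
          exact mem_union_right _ (mem_biUnion.2 ⟨t, mem_univ _,
            mem_filter.2 ⟨mem_univ _, hi, ht⟩⟩)
      have a3 := card_le_card a2
      have a4 := card_union_le q.2 (univ.biUnion (mm q))
      have a5 : (univ.biUnion (mm q)).card ≤ ∑ t, (mm q t).card := card_biUnion_le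
      rw [card_univ, Fintype.card_fin] at a3
      omega
    have a6 : ∑ t, (mm q t).card ≤ ∑ t ∈ 𝔹, (mm q t).card + 208 * n := by
      rw [← sum_filter_add_sum_filter_not univ (fun t => n ≤ (mm q t).card)]
      refine Nat.add_le_add_left ?_ _
      calc ∑ t ∈ univ.filter (fun t => ¬ n ≤ (mm q t).card), (mm q t).card ≤
            ∑ t ∈ univ.filter (fun t => ¬ n ≤ (mm q t).card), n :=
            sum_le_sum fun t ht => (not_le.1 (mem_filter.1 ht).2).le
        _ = (univ.filter (fun t => ¬ n ≤ (mm q t).card)).card * n := by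
            rw [sum_const, smul_eq_mul]
        _ ≤ 208 * n := by
            refine Nat.mul_le_mul_right _ ?_
            rw [← hT, ← card_univ]
            exact card_le_card (filter_subset _ _)
    have a7 : 103 * ∑ t ∈ 𝔹, (mm q t).card ≤ 𝔹.card * (832 * n) := by
      rw [mul_sum]
      calc ∑ t ∈ 𝔹, 103 * (mm q t).card ≤ ∑ t ∈ 𝔹, 832 * n := sum_le_sum fun t _ => hq1 t
        _ = _ := by rw [sum_const, smul_eq_mul]
    have a8 : 52 ≤ 𝔹.card := by
      by_contra hlt
      push Not at hlt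
      have a9 : 𝔹.card * (832 * n) ≤ 51 * (832 * n) := Nat.mul_le_mul_right _ (by omega)
      omega
    have a10 : ∀ t ∈ 𝔹, 6 * n ≤ 103 * (R q t).card := by
      intro t ht
      by_contra hlt
      push Not at hlt
      have a11 := he (R q t) hlt.le
      have a12 : (mm q t).card ≤ (univ.filter (fun i => ∀ r, e i r ∈ R q t)).card := by
        apply card_le_card
        intro i hi
        rw [mem_filter]
        refine ⟨mem_univ _, fun r => ?_⟩
        exact mem_filter.2 ⟨mem_univ _, i, hi, r, rfl⟩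
      have a13 := (mem_filter.1 ht).2
      omega
    have a14 : 𝔹.card * (6 * n) ≤ 103 * ∑ t, (R q t).card := by
      calc 𝔹.card * (6 * n) = ∑ t ∈ 𝔹, 6 * n := by rw [sum_const, smul_eq_mul]
        _ ≤ ∑ t ∈ 𝔹, 103 * (R q t).card := sum_le_sum a10
        _ ≤ ∑ t, 103 * (R q t).card :=
            sum_le_sum_of_subset (subset_univ _)
        _ = _ := by rw [mul_sum]
    have a15 : 52 * (6 * n) ≤ 𝔹.card * (6 * n) := Nat.mul_le_mul_right _ a8
    omega
  have h2 : ∀ q ∈ 𝒬, (∏ t, 2 ^ (n - (R q t).card)) * 2 ^ (3 * n) ≤ 2 ^ (n * 208) := by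
    intro q hq
    calc (∏ t, 2 ^ (n - (R q t).card)) * 2 ^ (3 * n) ≤
          (∏ t, 2 ^ (n - (R q t).card)) * 2 ^ (∑ t, (R q t).card) :=
          Nat.mul_le_mul_left _ (Nat.pow_le_pow_right (by norm_num) (hR q hq))
      _ = ∏ t : T, 2 ^ n := by
          rw [← prod_pow_eq_pow_sum, ← prod_mul_distrib]
          refine prod_congr rfl fun t _ => ?_
          rw [← pow_add, Nat.sub_add_cancel]
          exact (card_le_univ _).trans (by rw [Fintype.card_fin])
      _ = _ := by rw [prod_const, card_univ, hT, ← pow_mul]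
  have h3 : 𝒬.card ≤ 2 ^ n * 2 ^ n := by
    calc 𝒬.card ≤ Q0.card := card_le_card (filter_subset _ _)
      _ = 2 ^ n * (832 * n).choose (n / 32) := by
          rw [hQ0, card_product, card_powersetCard, card_univ, card_univ, Fintype.card_fun,
            Fintype.card_bool, Fintype.card_fin, Fintype.card_fin]
      _ ≤ _ := Nat.mul_le_mul_left _ (choose_small n)
  have h4 : (2 ^ n * 2 ^ n) * (𝔽.card ^ 208 * 2 ^ n) ≤ (2 ^ n * 2 ^ n) * 2 ^ (n * 208) := by
    calc (2 ^ n * 2 ^ n) * (𝔽.card ^ 208 * 2 ^ n) = 𝔽.card ^ 208 * 2 ^ (3 * n) := by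
          rw [show 3 * n = n + n + n by ring, pow_add, pow_add]; ring
      _ ≤ (∑ q ∈ 𝒬, ∏ t, 2 ^ (n - (R q t).card)) * 2 ^ (3 * n) := Nat.mul_le_mul_right _ h1
      _ = ∑ q ∈ 𝒬, (∏ t, 2 ^ (n - (R q t).card)) * 2 ^ (3 * n) := sum_mul _ _ _
      _ ≤ ∑ q ∈ 𝒬, 2 ^ (n * 208) := sum_le_sum h2
      _ = 𝒬.card * 2 ^ (n * 208) := by rw [sum_const, smul_eq_mul]
      _ ≤ _ := Nat.mul_le_mul_right _ h3
  exact Nat.le_of_mul_le_mul_left h4 (by positivity)

end Pool.Agent.H641R3.RG
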