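import Pool.Agent.H554R2.RK.Cut
import Pool.Agent.H554R2.RK.Congr
import Pool.Agent.H554R2.RK.Glue
import Pool.Agent.H554R2.RK.Mult
import Pool.Agent.H554R2.RK.RectCover

/-!
# Cutting an accepting computation of a read-once program, relative to a set of variables
-/

set_option autoImplicit false

open Finset

namespace Pool.Agent.H641R3.RG

open Pool.Agent.H554R2.Sem Pool.Agent.H554R2.RK

/-- An accepting computation of a read-once program is cut into few pieces with few variables in
`U`. -/
theorem cutU {n : ℕ} (a : ℕ) (P : NBP (Fin n)) (hP : ReadK P 1) (U : Finset (Fin n))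
    (hU : 0 < U.card) (x : Pt n) (hx : Acc P x) :
    ∃ (κ : Fin (a + 2) → Option P.State) (u : Fin (a + 1) → Option P.State),
      κ 0 = some P.start ∧ κ (Fin.last (a + 1)) = none ∧
      (∀ j : Fin (a + 1), Reach P x (κ j.castSucc) (u j)) ∧
      (∀ j : Fin (a + 1), OStep P x (u j) (κ j.succ)) ∧
      ∀ j : Fin (a + 1), a * (SVar P (κ j.castSucc) (u j) ∩ U).card ≤ U.card := by
  classical
  obtain ⟨L, hL0, hL⟩ := hx
  obtain ⟨nd, hnd⟩ : ∃ nd : ℕ → Option P.State, ∀ i, nd i = hd (L.drop i) none :=
    ⟨fun i => hd (L.drop i) none, fun _ => rfl⟩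
  have nd0 : nd 0 = some P.start := by rw [hnd, List.drop_zero, hL0]
  have ndN : ∀ i, L.length ≤ i → nd i = none := by
    intro i hi
    rw [hnd, List.drop_eq_nil_of_le hi]
    rfl
  have hrun : ∀ i, P.Run x (L.drop i) none := by
    intro i
    have h := hL
    rw [← List.take_append_drop i L, K2_run_append] at h
    exact h.2
  have hreach : ∀ i j, i ≤ j → Reach P x (nd i) (nd j) := by
    intro i j hij
    have h1 : (L.drop i).take (j - i) ++ L.drop j = L.drop i := by
      have h := List.take_append_drop (j - i) (L.drop i)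
      rw [List.drop_drop, show i + (j - i) = j by omega] at h
      exact h
    refine ⟨(L.drop i).take (j - i), ?_, ?_⟩
    · rw [hnd, hnd, ← K2_hd_append, h1]
    · have h2 := hrun i
      rw [← h1, K2_run_append, ← hnd] at h2
      exact h2.1
  have hpath : ∀ i j, i ≤ j → ∃ l, hd l (nd j) = nd i ∧ Path P l (nd j) := by
    intro i j hij
    obtain ⟨l, h1, h2⟩ := hreach i j hij
    exact ⟨l, h1, K2_run_path P x l _ h2⟩
  have hstep : ∀ i, OStep P x (nd i) (nd (i + 1)) := by
    intro i
    rcases h : L.drop i with _ | ⟨q, rest⟩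
    · have h1 : nd i = none := by rw [hnd, h]; rfl
      have h2 : nd (i + 1) = none := by
        apply ndN
        have := List.drop_eq_nil_iff.1 h
        omega
      rw [h1, h2]
      rfl
    · have h1 : nd i = some q := by rw [hnd, h]; rfl
      have h3 : L.drop (i + 1) = rest := by rw [← List.tail_drop, h]; rfl
      have h2 : nd (i + 1) = hd rest none := by rw [hnd, h3]
      have h4 := hrun i
      rw [h] at h4
      rw [h1, h2]
      exact h4.1
  have hself : ∀ i, SVar P (nd i) (nd i) = ∅ := by
    intro i
    by_contra hne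
    obtain ⟨v, hv⟩ := nonempty_iff_ne_empty.2 hne
    have h1 := K2_mult 1 P hP (fun j => if j = 0 then some P.start else nd i) (by simp) (1 + 2)
      (by
        intro j hj
        simp only [Nat.add_eq_zero_iff, one_ne_zero, and_false, if_false]
        by_cases hj0 : j = 0
        · rw [if_pos hj0, ← nd0]
          exact hpath 0 i (by omega)
        · rw [if_neg hj0]
          exact hpath i i le_rfl) v
    have h2 : Icc 1 (1 + 1) ⊆ (range (1 + 2)).filter (fun j => v ∈ SVar P
        ((fun j => if j = 0 then some P.start else nd i) j)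
        ((fun j => if j = 0 then some P.start else nd i) (j + 1))) := by
      intro j hj
      rw [mem_Icc] at hj
      rw [mem_filter, mem_range]
      refine ⟨by omega, ?_⟩
      simp only [Nat.add_eq_zero_iff, one_ne_zero, and_false, if_false]
      rw [if_neg (by omega)]
      exact hv
    have h3 := card_le_card h2
    rw [Nat.card_Icc] at h3
    have h4 : 1 + 1 + 1 - 1 ≤ 1 := h3.trans h1
    omega
  have hf : ∀ i, ∃ j, i ≤ j ∧ a * (SVar P (nd i) (nd j) ∩ U).card ≤ U.card ∧
      (j < L.length → U.card < a * (SVar P (nd i) (nd (j + 1)) ∩ U).card) := by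
    intro i
    by_cases hi : L.length ≤ i
    · exact ⟨i, le_rfl, by rw [hself]; simp, by omega⟩
    · by_contra hcon
      push Not at hcon
      have h1 : ∀ j, i ≤ j → j ≤ L.length → a * (SVar P (nd i) (nd j) ∩ U).card ≤ U.card := by
        intro j hj
        induction j, hj using Nat.le_induction with
        | base => intro _; rw [hself]; simp
        | succ j hj ih =>
          intro hjN
          exact (hcon j hj (ih (by omega))).2
      have h2 := hcon L.length (by omega) (h1 L.length (by omega) le_rfl)
      omega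
  choose f hf1 hf2 hf3 using hf
  obtain ⟨p, p0, ps⟩ : ∃ p : ℕ → ℕ, p 0 = 0 ∧ ∀ j, p (j + 1) = f (p j) + 1 :=
    ⟨fun j => Nat.rec 0 (fun _ r => f r + 1) j, rfl, fun _ => rfl⟩
  have pmono : Monotone p := by
    apply monotone_nat_of_le_succ
    intro j
    rw [ps]
    have := hf1 (p j)
    omega
  refine ⟨fun j => nd (p j), fun j => nd (f (p j)), ?_, ?_, ?_, ?_, ?_⟩
  · simp only [Fin.val_zero, p0, nd0]
  · simp only [Fin.val_last]
    apply ndN
    by_contra hlt
    push Not at hlt
    have h1 : ∀ j < a + 1, U.card < a * (SVar P (nd (p j)) (nd (p (j + 1))) ∩ U).card := by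
      intro j hj
      rw [ps]
      apply hf3
      have h2 : p (j + 1) ≤ p (a + 1) := pmono (by omega)
      rw [ps] at h2
      omega
    have h2 : ∀ v : Fin n, ((range (a + 1)).filter
        (fun i => v ∈ SVar P (nd (p i)) (nd (p (i + 1))))).card ≤ 1 := by
      intro v
      exact K2_mult 1 P hP (fun j => nd (p j)) (by simp only [p0, nd0]) (a + 1)
        (fun i _ => hpath _ _ (pmono (by omega))) v
    have h3 : ∑ j ∈ range (a + 1), (SVar P (nd (p j)) (nd (p (j + 1))) ∩ U).card ≤ U.card := by
      have h4 := sum_card_bipartiteAbove_eq_sum_card_bipartiteBelow (s := range (a + 1))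
        (t := U) (fun j v => v ∈ SVar P (nd (p j)) (nd (p (j + 1))))
      calc ∑ j ∈ range (a + 1), (SVar P (nd (p j)) (nd (p (j + 1))) ∩ U).card
          = ∑ j ∈ range (a + 1), (U.bipartiteAbove
              (fun j v => v ∈ SVar P (nd (p j)) (nd (p (j + 1)))) j).card := by
            refine sum_congr rfl fun j _ => ?_
            congr 1
            ext v
            simp [bipartiteAbove, and_comm]
        _ = _ := h4
        _ ≤ ∑ v ∈ U, 1 := sum_le_sum fun v _ => h2 v
        _ = U.card := by simp
    have h4 : (a + 1) * U.card ≤ a * ∑ j ∈ range (a + 1),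
        (SVar P (nd (p j)) (nd (p (j + 1))) ∩ U).card := by
      rw [mul_sum]
      calc (a + 1) * U.card = ∑ j ∈ range (a + 1), U.card := by simp
        _ ≤ _ := sum_le_sum fun j hj => (h1 j (mem_range.1 hj)).le
    have h5 := h4.trans (Nat.mul_le_mul_left a h3)
    nlinarith
  · intro j
    exact hreach _ _ (hf1 _)
  · intro j
    simp only [Fin.val_succ]
    rw [ps]
    exact hstep _
  · intro j
    exact hf2 _

end Pool.Agent.H641R3.RG
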