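import Pool.Agent.H641R3.RG.Ham

/-!
# Large 2-matchings in mixtures of the Hamiltonian cycles
-/

set_option autoImplicit false

open Finset

namespace Pool.Agent.H641R3.RG

/-- the number of edges in `Q` at `v` -/
def dg {n : ℕ} (Q : Finset (Sym2 (Fin n))) (v : Fin n) : ℕ := (Q.filter (fun e => v ∈ e)).card

theorem dg_sum {n : ℕ} (Q : Finset (Sym2 (Fin n))) (hnd : ∀ e ∈ Q, ¬ e.IsDiag) :
    ∑ v, dg Q v = 2 * Q.card := by
  have h1 := sum_card_bipartiteAbove_eq_sum_card_bipartiteBelow (s := (univ : Finset (Fin n)))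
    (t := Q) (fun v e => v ∈ e)
  have h2 : ∀ e ∈ Q, ((univ : Finset (Fin n)).bipartiteBelow (fun v e => v ∈ e) e).card = 2 := by
    intro e he
    rw [← Sym2.card_toFinset_of_not_isDiag e (hnd e he)]
    congr 1
    ext v
    simp [bipartiteBelow, Sym2.mem_toFinset]
  rw [sum_congr rfl h2, sum_const, smul_eq_mul, mul_comm] at h1
  exact h1

theorem two_of {n : ℕ} (Q : Finset (Sym2 (Fin n))) (v : Fin n) (e₁ e₂ : Sym2 (Fin n))
    (hd : ¬ dg Q v < 2) (h : ∀ e ∈ Q, v ∈ e → e = e₁ ∨ e = e₂) : e₁ ∈ Q ∧ e₂ ∈ Q := by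
  have h1 : Q.filter (fun e => v ∈ e) ⊆ {e₁, e₂} := by
    intro e he
    rw [mem_filter] at he
    rw [mem_insert, mem_singleton]
    exact h e he.1 he.2
  have h2 : ({e₁, e₂} : Finset (Sym2 (Fin n))).card ≤ (Q.filter (fun e => v ∈ e)).card :=
    card_le_two.trans (not_lt.1 hd)
  have h3 := eq_of_subset_of_card_le h1 h2
  constructor
  · have : e₁ ∈ Q.filter (fun e => v ∈ e) := by rw [h3]; simp
    exact (mem_filter.1 this).1
  · have : e₂ ∈ Q.filter (fun e => v ∈ e) := by rw [h3]; simp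
    exact (mem_filter.1 this).1

theorem extract {h : ℕ} {T : Type} (Q : Finset (Sym2 (Fin (h * 6))))
    (A : Sym2 (Fin (h * 6)) → T → Prop) (F : T → Equiv.Perm (Fin h))
    (hnd : ∀ e ∈ Q, ¬ e.IsDiag)
    (hed : ∀ e ∈ Q, ∃ t, A e t ∧ ∃ i r, e = ed (F t) i r)
    (hdeg : ∀ v, dg Q v ≤ 2) (hQ : 3071 * (h * 6) ≤ 3072 * Q.card) :
    ∃ (I : Finset (Fin h)) (f : Fin h → Fin h), h - h / 64 ≤ I.card ∧
      Set.InjOn f (I : Set (Fin h)) ∧
      ∀ i ∈ I, ∃ t, A s(vx i 2, vx (f i) 3) t ∧ F t i = f i := by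
  classical
  set B : Finset (Fin (h * 6)) := univ.filter (fun v => dg Q v < 2) with hB
  have hBc : 256 * B.card ≤ h := by
    have h1 : ∑ v : Fin (h * 6), (dg Q v + if v ∈ B then 1 else 0) ≤ ∑ v : Fin (h * 6), 2 := by
      refine sum_le_sum fun v _ => ?_
      have h2 := hdeg v
      by_cases hv : v ∈ B
      · rw [if_pos hv]
        rw [hB, mem_filter] at hv
        omega
      · rw [if_neg hv]
        omega
    rw [sum_add_distrib, dg_sum Q hnd, sum_const, card_univ, Fintype.card_fin, smul_eq_mul,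
      sum_boole] at h1
    have h3 : (univ.filter (fun v => v ∈ B)).card = B.card := by
      congr 1
      ext v
      simp
    have h4 : ((univ.filter (fun v => v ∈ B)).card : ℕ) = B.card := h3
    simp only [Nat.cast_id] at h1
    rw [h4] at h1
    omega
  have hfull : ∀ v, v ∉ B → ¬ dg Q v < 2 := by
    intro v hv hlt
    exact hv (mem_filter.2 ⟨mem_univ _, hlt⟩)
  have h12 : ∀ i : Fin h, vx i 1 ∉ B → s(vx i 1, vx i 2) ∈ Q := by
    intro i hi
    refine (two_of Q (vx i 1) s(vx i 0, vx i 1) s(vx i 1, vx i 2) (hfull _ hi) ?_).2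
    intro e he hv
    obtain ⟨t, _, i', r, rfl⟩ := hed e he
    exact ed_at1 (F t) i' i r hv
  have h34 : ∀ j : Fin h, vx j 4 ∉ B → s(vx j 3, vx j 4) ∈ Q := by
    intro j hj
    refine (two_of Q (vx j 4) s(vx j 3, vx j 4) s(vx j 4, vx j 5) (hfull _ hj) ?_).1
    intro e he hv
    obtain ⟨t, _, i', r, rfl⟩ := hed e he
    exact ed_at4 (F t) i' j r hv
  have hex : ∀ i : Fin h, ∃ j : Fin h, (vx i 1 ∉ B ∧ vx i 2 ∉ B) → s(vx i 2, vx j 3) ∈ Q ∧
      ∃ t, A s(vx i 2, vx j 3) t ∧ F t i = j := by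
    intro i
    by_cases hi : vx i 1 ∉ B ∧ vx i 2 ∉ B
    · have h1 : 1 < (Q.filter (fun e => vx i 2 ∈ e)).card := by
        have := hfull _ hi.2
        unfold dg at this
        omega
      obtain ⟨e, he, hne⟩ := exists_mem_ne h1 s(vx i 1, vx i 2)
      rw [mem_filter] at he
      obtain ⟨t, hA, i', r, hr⟩ := hed e he.1
      rcases ed_at2 (F t) i' i r (by rw [← hr]; exact he.2) with h2 | h2
      · exact absurd (hr.trans h2) hne
      · refine ⟨F t i, fun _ => ?_⟩
        rw [← h2, ← hr]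
        exact ⟨he.1, t, hA, rfl⟩
    · exact ⟨i, fun h => absurd h hi⟩
  choose f hf using hex
  set I₀ : Finset (Fin h) := univ.filter (fun i => vx i 1 ∉ B ∧ vx i 2 ∉ B) with hI₀
  have hinB : ∀ r : Fin 6, (univ.filter (fun i : Fin h => vx i r ∈ B)).card ≤ B.card := by
    intro r
    apply card_le_card_of_injOn (fun i => vx i r)
    · intro i hi
      have hi' : i ∈ univ.filter (fun i : Fin h => vx i r ∈ B) := hi
      exact mem_coe.2 (mem_filter.1 hi').2
    · intro i _ i' _ hii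
      exact (vx_inj.1 hii).1
  have hfib : ∀ j, (I₀.filter (fun i => f i = j)).card ≤ 2 := by
    intro j
    refine le_trans ?_ (hdeg (vx j 3))
    apply card_le_card_of_injOn (fun i => s(vx i 2, vx j 3))
    · intro i hi
      have hi' : i ∈ I₀.filter (fun i => f i = j) := hi
      rw [mem_filter, hI₀, mem_filter] at hi'
      have h1 := (hf i hi'.1.2).1
      rw [hi'.2] at h1
      exact mem_coe.2 (mem_filter.2 ⟨h1, Sym2.mem_mk_right _ _⟩)
    · intro i _ i' _ hii
      have hii' : s(vx i 2, vx j 3) = s(vx i' 2, vx j 3) := hii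
      rcases Sym2.eq_iff.1 hii' with ⟨h1, _⟩ | ⟨h1, _⟩
      · exact (vx_inj.1 h1).1
      · exact absurd (vx_inj.1 h1).2 (by decide)
  refine ⟨I₀.filter (fun i => vx (f i) 4 ∉ B), f, ?_, ?_, ?_⟩
  · have h1 : (I₀.filter (fun i => vx (f i) 4 ∈ B)).card ≤ 2 * B.card := by
      have h2 := card_le_mul_card_image_of_maps_to
        (s := I₀.filter (fun i => vx (f i) 4 ∈ B)) (t := univ.filter (fun j : Fin h => vx j 4 ∈ B))
        (f := f) (fun i hi => mem_filter.2 ⟨mem_univ _, (mem_filter.1 hi).2⟩) 2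
        (fun j _ => le_trans (card_le_card (by
          intro i hi
          rw [mem_filter, mem_filter] at hi
          exact mem_filter.2 ⟨hi.1.1, hi.2⟩)) (hfib j))
      exact h2.trans (Nat.mul_le_mul_left _ (hinB 4))
    have h2 : (univ : Finset (Fin h)) ⊆ (I₀.filter (fun i => vx (f i) 4 ∉ B)) ∪
        ((I₀.filter (fun i => vx (f i) 4 ∈ B)) ∪ ((univ.filter (fun i : Fin h => vx i 1 ∈ B)) ∪
          (univ.filter (fun i : Fin h => vx i 2 ∈ B)))) := by
      intro i _
      by_cases a1 : vx i 1 ∈ B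
      · exact mem_union_right _ (mem_union_right _ (mem_union_left _
          (mem_filter.2 ⟨mem_univ _, a1⟩)))
      by_cases a2 : vx i 2 ∈ B
      · exact mem_union_right _ (mem_union_right _ (mem_union_right _
          (mem_filter.2 ⟨mem_univ _, a2⟩)))
      have a0 : i ∈ I₀ := mem_filter.2 ⟨mem_univ _, a1, a2⟩
      by_cases a4 : vx (f i) 4 ∈ B
      · exact mem_union_right _ (mem_union_left _ (mem_filter.2 ⟨a0, a4⟩))
      · exact mem_union_left _ (mem_filter.2 ⟨a0, a4⟩)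
    have h3 := card_le_card h2
    have h4 := card_union_le (I₀.filter (fun i => vx (f i) 4 ∉ B))
      ((I₀.filter (fun i => vx (f i) 4 ∈ B)) ∪ ((univ.filter (fun i : Fin h => vx i 1 ∈ B)) ∪
          (univ.filter (fun i : Fin h => vx i 2 ∈ B))))
    have h5 := card_union_le (I₀.filter (fun i => vx (f i) 4 ∈ B))
      ((univ.filter (fun i : Fin h => vx i 1 ∈ B)) ∪ (univ.filter (fun i : Fin h => vx i 2 ∈ B)))
    have h6 := card_union_le (univ.filter (fun i : Fin h => vx i 1 ∈ B))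
      (univ.filter (fun i : Fin h => vx i 2 ∈ B))
    have h7 := hinB 1
    have h8 := hinB 2
    rw [card_univ, Fintype.card_fin] at h3
    omega
  · intro i hi i' hi' hii
    by_contra hne
    have hi2 : i ∈ I₀.filter (fun i => vx (f i) 4 ∉ B) := hi
    have hi2' : i' ∈ I₀.filter (fun i => vx (f i) 4 ∉ B) := hi'
    rw [mem_filter, hI₀, mem_filter] at hi2 hi2'
    have h1 := (hf i hi2.1.2).1
    have h2 := (hf i' hi2'.1.2).1
    have h3 := h34 (f i) hi2.2
    rw [← hii] at h2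
    have h4 : ({s(vx i 2, vx (f i) 3), s(vx i' 2, vx (f i) 3), s(vx (f i) 3, vx (f i) 4)} :
        Finset (Sym2 (Fin (h * 6)))) ⊆ Q.filter (fun e => vx (f i) 3 ∈ e) := by
      intro e he
      rw [mem_insert, mem_insert, mem_singleton] at he
      rw [mem_filter]
      rcases he with rfl | rfl | rfl
      · exact ⟨h1, Sym2.mem_mk_right _ _⟩
      · exact ⟨h2, Sym2.mem_mk_right _ _⟩
      · exact ⟨h3, Sym2.mem_mk_left _ _⟩
    have h5 : ({s(vx i 2, vx (f i) 3), s(vx i' 2, vx (f i) 3), s(vx (f i) 3, vx (f i) 4)} :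
        Finset (Sym2 (Fin (h * 6)))).card = 3 := by
      apply card_eq_three.2
      refine ⟨_, _, _, ?_, ?_, ?_, rfl⟩
      · intro hEq
        rcases Sym2.eq_iff.1 hEq with ⟨h6, _⟩ | ⟨h6, _⟩
        · exact hne (vx_inj.1 h6).1
        · exact absurd (vx_inj.1 h6).2 (by decide)
      · intro hEq
        rcases Sym2.eq_iff.1 hEq with ⟨h6, _⟩ | ⟨h6, _⟩
        · exact absurd (vx_inj.1 h6).2 (by decide)
        · exact absurd (vx_inj.1 h6).2 (by decide)
      · intro hEq
        rcases Sym2.eq_iff.1 hEq with ⟨h6, _⟩ | ⟨h6, _⟩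
        · exact absurd (vx_inj.1 h6).2 (by decide)
        · exact absurd (vx_inj.1 h6).2 (by decide)
    have h6 := card_le_card h4
    have h7 := hdeg (vx (f i) 3)
    unfold dg at h7
    omega
  · intro i hi
    rw [mem_filter, hI₀, mem_filter] at hi
    exact (hf i hi.1.2).2

end Pool.Agent.H641R3.RG
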