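import Pool.Agent.H641R3.RG.Main

/-!
# The Hamiltonian cycles given by permutations
-/

set_option autoImplicit false

open Finset

namespace Pool.Agent.H641R3.RG

open Pool.Agent.H554R2.Sem Pool.Agent.H554R2.RK

/-- the cyclic successor -/
def rt {n : ℕ} (p : Fin n) : Fin n := ⟨(p.val + 1) % n, Nat.mod_lt _ p.pos⟩

theorem ham_of_cyc (n : ℕ) (hn : 3 ≤ n) (G : SimpleGraph (Fin n)) (σ : Equiv.Perm (Fin n))
    (hσ : ∀ p, G.Adj (σ p) (σ (rt p))) : G.IsHamiltonian := by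
  obtain ⟨m, rfl⟩ : ∃ m, n = m + 3 := ⟨n - 3, by omega⟩
  have key : ∀ u v : Fin (m + 3), (u - v).val = 1 → u = rt v := by
    intro u v h
    apply Fin.ext
    have hu := u.2
    have hv := v.2
    rw [Fin.val_sub] at h
    change u.val = (v.val + 1) % (m + 3)
    have hcases : u.val = v.val + 1 ∨ (u.val = 0 ∧ v.val = m + 2) := by
      by_cases hc : m + 3 - v.val + u.val < m + 3
      · rw [Nat.mod_eq_of_lt hc] at h
        omega
      · rw [Nat.mod_eq_sub_mod (by omega), Nat.mod_eq_of_lt (by omega)] at h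
        omega
    rcases hcases with h1 | ⟨h1, h2⟩
    · rw [← h1, Nat.mod_eq_of_lt hu]
    · rw [h1, h2]
      simp
  let f : SimpleGraph.cycleGraph (m + 3) →g G := ⟨σ, by
    intro u v h
    rw [SimpleGraph.cycleGraph_adj'] at h
    rcases h with h | h
    · rw [key u v h]
      exact (hσ v).symm
    · rw [key v u h]
      exact hσ u⟩
  intro _
  refine ⟨f 0, (SimpleGraph.cycleGraph.cycle m).map f, ?_⟩
  apply SimpleGraph.Walk.IsHamiltonianCycle.map (f := f) σ.bijective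
  rw [SimpleGraph.Walk.isHamiltonianCycle_iff_isCycle_and_length_eq]
  refine ⟨SimpleGraph.cycleGraph.isCycle_cycle, ?_⟩
  rw [SimpleGraph.cycleGraph.length_cycle]
  simp

/-- the vertex `r` of the block `i` -/
def vx {h : ℕ} (i : Fin h) (r : Fin 6) : Fin (h * 6) := finProdFinEquiv (i, r)

theorem vx_inj {h : ℕ} {i i' : Fin h} {r r' : Fin 6} : vx i r = vx i' r' ↔ i = i' ∧ r = r' := by
  unfold vx
  rw [finProdFinEquiv.injective.eq_iff, Prod.mk.injEq]

theorem vx_surj {h : ℕ} (p : Fin (h * 6)) : ∃ i r, p = vx i r := by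
  refine ⟨(finProdFinEquiv.symm p).1, (finProdFinEquiv.symm p).2, ?_⟩
  unfold vx
  rw [Prod.mk.eta, Equiv.apply_symm_apply]

theorem vx_val {h : ℕ} (i : Fin h) (r : Fin 6) : (vx i r).val = r.val + 6 * i.val := rfl

theorem rt_vx_lt {h : ℕ} (i : Fin h) (r r' : Fin 6) (hr : r'.val = r.val + 1) :
    rt (vx i r) = vx i r' := by
  apply Fin.ext
  change ((vx i r).val + 1) % (h * 6) = (vx i r').val
  rw [vx_val, vx_val, hr]
  have h1 := i.2
  have h2 := r'.2
  rw [Nat.mod_eq_of_lt (by omega)]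
  omega

theorem rt_vx_5 {h : ℕ} (i : Fin h) : rt (vx i 5) = vx (rt i) 0 := by
  apply Fin.ext
  change ((vx i 5).val + 1) % (h * 6) = (vx (rt i) 0).val
  rw [vx_val, vx_val]
  change (5 + 6 * i.val + 1) % (h * 6) = 0 + 6 * ((i.val + 1) % h)
  have h1 := i.2
  rcases Nat.lt_or_ge (i.val + 1) h with h2 | h2
  · rw [Nat.mod_eq_of_lt h2, Nat.mod_eq_of_lt (by omega)]
    omega
  · have h3 : i.val + 1 = h := by omega
    rw [h3, Nat.mod_self, show 5 + 6 * i.val + 1 = h * 6 by omega, Nat.mod_self]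

/-- the edges of the cycle -/
def ed {h : ℕ} (π : Equiv.Perm (Fin h)) (i : Fin h) (r : Fin 6) : Sym2 (Fin (h * 6)) :=
  ![s(vx i 0, vx i 1), s(vx i 1, vx i 2), s(vx i 2, vx (π i) 3), s(vx (π i) 3, vx (π i) 4),
    s(vx (π i) 4, vx (π i) 5), s(vx (π i) 5, vx (rt i) 0)] r

/-- the order in which the cycle visits the vertices -/
def sg {h : ℕ} (π : Equiv.Perm (Fin h)) : Equiv.Perm (Fin (h * 6)) :=
  (finProdFinEquiv.symm.trans
    { toFun := fun a => (if a.2.val < 3 then a.1 else π a.1, a.2)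
      invFun := fun a => (if a.2.val < 3 then a.1 else π.symm a.1, a.2)
      left_inv := by
        rintro ⟨i, r⟩
        by_cases hr : r.val < 3
        · simp [hr]
        · simp [hr]
      right_inv := by
        rintro ⟨i, r⟩
        by_cases hr : r.val < 3
        · simp [hr]
        · simp [hr] }).trans finProdFinEquiv

theorem sg_vx {h : ℕ} (π : Equiv.Perm (Fin h)) (i : Fin h) (r : Fin 6) :
    sg π (vx i r) = vx (if r.val < 3 then i else π i) r := by
  unfold sg vx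
  simp

theorem sg_edge {h : ℕ} (π : Equiv.Perm (Fin h)) (i : Fin h) (r : Fin 6) :
    s(sg π (vx i r), sg π (rt (vx i r))) = ed π i r := by
  fin_cases r
  · rw [show (⟨0, by norm_num⟩ : Fin 6) = 0 from rfl, rt_vx_lt i 0 1 rfl, sg_vx, sg_vx]; rfl
  · rw [show (⟨1, by norm_num⟩ : Fin 6) = 1 from rfl, rt_vx_lt i 1 2 rfl, sg_vx, sg_vx]; rfl
  · rw [show (⟨2, by norm_num⟩ : Fin 6) = 2 from rfl, rt_vx_lt i 2 3 rfl, sg_vx, sg_vx]; rfl
  · rw [show (⟨3, by norm_num⟩ : Fin 6) = 3 from rfl, rt_vx_lt i 3 4 rfl, sg_vx, sg_vx]; rfl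
  · rw [show (⟨4, by norm_num⟩ : Fin 6) = 4 from rfl, rt_vx_lt i 4 5 rfl, sg_vx, sg_vx]; rfl
  · rw [show (⟨5, by norm_num⟩ : Fin 6) = 5 from rfl, rt_vx_5 i, sg_vx, sg_vx]; rfl

/-- the bits of the cycle -/
def yin {h N : ℕ} (φ : Fin N ≃ {e : Sym2 (Fin (h * 6)) // ¬ e.IsDiag})
    (π : Equiv.Perm (Fin h)) : Fin N → Bool := fun v => decide (∃ i r, (φ v).1 = ed π i r)

theorem yin_ham {h N : ℕ} (hh : 1 ≤ h) (φ : Fin N ≃ {e : Sym2 (Fin (h * 6)) // ¬ e.IsDiag})
    (π : Equiv.Perm (Fin h)) : (graphOf φ (yin φ π)).IsHamiltonian := by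
  apply ham_of_cyc (h * 6) (by omega) _ (sg π)
  intro p
  have hne : sg π p ≠ sg π (rt p) := by
    intro hEq
    have h1 := (sg π).injective hEq
    have h2 := congrArg Fin.val h1
    change p.val = (p.val + 1) % (h * 6) at h2
    have h3 := p.2
    rcases Nat.lt_or_ge (p.val + 1) (h * 6) with h4 | h4
    · rw [Nat.mod_eq_of_lt h4] at h2
      omega
    · have h5 : p.val + 1 = h * 6 := by omega
      rw [h5, Nat.mod_self] at h2
      omega
  obtain ⟨i, r, rfl⟩ := vx_surj p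
  rw [graphOf, SimpleGraph.fromEdgeSet_adj]
  refine ⟨⟨φ.symm ⟨s(sg π (vx i r), sg π (rt (vx i r))), by simpa using hne⟩, by simp, ?_⟩, hne⟩
  unfold yin
  rw [decide_eq_true_iff, Equiv.apply_symm_apply]
  exact ⟨i, r, sg_edge π i r⟩

/-- the variables of the edges of the cycle -/
def cvars {h N : ℕ} (φ : Fin N ≃ {e : Sym2 (Fin (h * 6)) // ¬ e.IsDiag})
    (π : Equiv.Perm (Fin h)) : Finset (Fin N) := univ.filter (fun v => ∃ i r, (φ v).1 = ed π i r)

theorem cvars_card {h N : ℕ} (φ : Fin N ≃ {e : Sym2 (Fin (h * 6)) // ¬ e.IsDiag})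
    (π : Equiv.Perm (Fin h)) : (cvars φ π).card ≤ 6 * h := by
  classical
  have h1 : (cvars φ π).card ≤ ((univ : Finset (Fin h × Fin 6)).image
      (fun a => ed π a.1 a.2)).card := by
    apply card_le_card_of_injOn (fun v => (φ v).1)
    · intro v hv
      have hv' : v ∈ cvars φ π := hv
      rw [cvars, mem_filter] at hv'
      obtain ⟨i, r, h2⟩ := hv'.2
      exact mem_coe.2 (mem_image.2 ⟨(i, r), mem_univ _, h2.symm⟩)
    · intro v _ v' _ hvv
      exact φ.injective (Subtype.ext hvv)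
  refine h1.trans (card_image_le.trans ?_)
  rw [card_univ, Fintype.card_prod, Fintype.card_fin, Fintype.card_fin, mul_comm]

/-- the edges of the cycles at certain vertices -/
theorem ed_at1 {h : ℕ} (π : Equiv.Perm (Fin h)) (i j : Fin h) (r : Fin 6)
    (hm : vx j 1 ∈ ed π i r) : ed π i r = s(vx j 0, vx j 1) ∨ ed π i r = s(vx j 1, vx j 2) := by
  fin_cases r <;> simp [ed, vx_inj] at hm ⊢ <;> simp_all [vx_inj]

theorem ed_at4 {h : ℕ} (π : Equiv.Perm (Fin h)) (i j : Fin h) (r : Fin 6)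
    (hm : vx j 4 ∈ ed π i r) : ed π i r = s(vx j 3, vx j 4) ∨ ed π i r = s(vx j 4, vx j 5) := by
  fin_cases r <;> simp [ed, vx_inj] at hm ⊢ <;> simp_all [vx_inj]

theorem ed_at2 {h : ℕ} (π : Equiv.Perm (Fin h)) (i j : Fin h) (r : Fin 6)
    (hm : vx j 2 ∈ ed π i r) :
    ed π i r = s(vx j 1, vx j 2) ∨ ed π i r = s(vx j 2, vx (π j) 3) := by
  fin_cases r <;> simp [ed, vx_inj] at hm ⊢ <;> simp_all [vx_inj]

end Pool.Agent.H641R3.RG
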