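import Pool.Agent.H641R3.RG.Core
import Pool.Agent.H641R3.RG.CutU

/-!
# Nondeterministic read-once programs cannot approximate the clique number
-/

set_option autoImplicit false

open Finset

namespace Pool.Agent.H641R3.RG

open Pool.Agent.H554R2.Sem Pool.Agent.H554R2.RK

/-- The graph on `n` vertices given by the bits `x`, one for each pair of vertices (the pair of the
bit `i` is `φ i`). -/
def graphOf {n N : ℕ} (φ : Fin N ≃ {e : Sym2 (Fin n) // ¬ e.IsDiag}) (x : Fin N → Bool) :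
    SimpleGraph (Fin n) :=
  SimpleGraph.fromEdgeSet {e | ∃ i, (φ i).1 = e ∧ x i = true}

/-- the bits of the complete graph on `S` -/
def kin {n N : ℕ} (φ : Fin N ≃ {e : Sym2 (Fin n) // ¬ e.IsDiag}) (S : Finset (Fin n)) :
    Fin N → Bool := fun i => decide (∀ v ∈ (φ i).1, v ∈ S)

theorem kin_clique {n N : ℕ} (φ : Fin N ≃ {e : Sym2 (Fin n) // ¬ e.IsDiag})
    (S : Finset (Fin n)) : (graphOf φ (kin φ S)).IsClique (S : Set (Fin n)) := by
  intro v hv w hw hvw
  rw [graphOf, SimpleGraph.fromEdgeSet_adj]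
  refine ⟨⟨φ.symm ⟨s(v, w), by simpa using hvw⟩, by simp, ?_⟩, hvw⟩
  unfold kin
  rw [decide_eq_true_iff]
  intro u hu
  rw [Equiv.apply_symm_apply] at hu
  rcases Sym2.mem_iff.1 hu with rfl | rfl
  · exact hv
  · exact hw

/-- the variables of the pairs inside `W` -/
def inside {n N : ℕ} (φ : Fin N ≃ {e : Sym2 (Fin n) // ¬ e.IsDiag}) (W : Finset (Fin n)) :
    Finset (Fin N) := univ.filter (fun i => ∀ v ∈ (φ i).1, v ∈ W)

theorem inside_card {n N : ℕ} (φ : Fin N ≃ {e : Sym2 (Fin n) // ¬ e.IsDiag})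
    (W : Finset (Fin n)) : (inside φ W).card ≤ (W.card + 1).choose 2 := by
  rw [← Finset.card_sym2]
  apply card_le_card_of_injOn (fun i => (φ i).1)
  · intro i hi
    have hi' : i ∈ inside φ W := hi
    rw [inside, mem_filter] at hi'
    exact mem_coe.2 (mem_sym2_iff.2 hi'.2)
  · intro i _ j _ hij
    exact φ.injective (Subtype.ext hij)

/-- the pair `v, w` belongs to the set `A` of variables -/
def PairIn {n N : ℕ} (φ : Fin N ≃ {e : Sym2 (Fin n) // ¬ e.IsDiag}) (A : Finset (Fin N))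
    (v w : Fin n) : Prop := v ≠ w ∧ ∃ i ∈ A, (φ i).1 = s(v, w)

theorem pairIn_card {n N : ℕ} (φ : Fin N ≃ {e : Sym2 (Fin n) // ¬ e.IsDiag})
    (A : Finset (Fin N)) (W : Finset (Fin n)) [∀ v w, Decidable (PairIn φ A v w)] :
    ((W ×ˢ W).filter (fun z => PairIn φ A z.1 z.2)).card ≤ 2 * (A ∩ inside φ W).card := by
  classical
  have h1 : (W ×ˢ W).filter (fun z => PairIn φ A z.1 z.2) ⊆
      (A ∩ inside φ W).biUnion (fun i => (W ×ˢ W).filter (fun z => (φ i).1 = s(z.1, z.2))) := by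
    intro z hz
    rw [mem_filter] at hz
    obtain ⟨hz1, _, i, hi, hi2⟩ := hz
    rw [mem_biUnion]
    refine ⟨i, ?_, mem_filter.2 ⟨hz1, hi2⟩⟩
    rw [mem_inter, inside, mem_filter]
    refine ⟨hi, mem_univ _, fun v hv => ?_⟩
    rw [hi2] at hv
    rw [mem_product] at hz1
    rcases Sym2.mem_iff.1 hv with rfl | rfl
    · exact hz1.1
    · exact hz1.2
  refine (card_le_card h1).trans (card_biUnion_le.trans ?_)
  have h2 : ∀ i ∈ A ∩ inside φ W,
      ((W ×ˢ W).filter (fun z => (φ i).1 = s(z.1, z.2))).card ≤ 2 := by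
    intro i _
    obtain ⟨a, b, hab⟩ : ∃ a b, (φ i).1 = s(a, b) := by
      induction h : (φ i).1 with
      | h a b => exact ⟨a, b, rfl⟩
    refine (card_le_card (t := {(a, b), (b, a)}) ?_).trans (card_le_two)
    intro z hz
    rw [mem_filter, hab] at hz
    rw [mem_insert, mem_singleton]
    rcases Sym2.eq_iff.1 hz.2 with ⟨h3, h4⟩ | ⟨h3, h4⟩
    · left; exact Prod.ext h3.symm h4.symm
    · right; exact Prod.ext h4.symm h3.symm
  calc _ ≤ ∑ i ∈ A ∩ inside φ W, 2 := sum_le_sum h2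
    _ = _ := by rw [sum_const, smul_eq_mul, mul_comm]

theorem lower (n s g N : ℕ) (hg : 1 ≤ g) (hs : 15 * g ^ 2 ≤ s) (hn : 2 * s ≤ n)
    (φ : Fin N ≃ {e : Sym2 (Fin n) // ¬ e.IsDiag}) (P : NBP (Fin N)) (hP : ReadK P 1)
    (hyes : ∀ x, (∃ S : Finset (Fin n), S.card = s ∧ (graphOf φ x).IsClique (S : Set (Fin n))) →
      Acc P x)
    (hno : ∀ x, Acc P x → ∃ Q : Finset (Fin n), s ≤ g * Q.card ∧
      (graphOf φ x).IsClique (Q : Set (Fin n))) :
    n ^ s ≤ s ^ s * (Fintype.card P.State + 1) ^ (2 ^ 18 * g ^ 8) := by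
  classical
  have hg2 : g ≤ g ^ 2 := Nat.le_self_pow (by norm_num) g
  have hg4 : 1 ≤ g ^ 4 := Nat.one_le_pow _ _ hg
  set a : ℕ := 225 * g ^ 4 with ha
  have has : a ≤ s ^ 2 := by
    calc a = (15 * g ^ 2) ^ 2 := by rw [ha]; ring
      _ ≤ s ^ 2 := Nat.pow_le_pow_left hs 2
  have hU1 : ∀ S : Finset (Fin n), S.card = s → (inside φ S).card ≤ s ^ 2 := by
    intro S hS
    have h1 := inside_card φ S
    rw [hS, Nat.choose_two_right, Nat.add_sub_cancel] at h1
    have h4 : s ≤ s ^ 2 := Nat.le_self_pow (by norm_num) s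
    have h5 : (s + 1) * s / 2 ≤ s ^ 2 := by
      apply Nat.div_le_of_le_mul
      have : (s + 1) * s = s ^ 2 + s := by ring
      omega
    omega
  have hU0 : ∀ S : Finset (Fin n), S.card = s → 0 < (inside φ S).card := by
    intro S hS
    obtain ⟨v, hv, w, hw, hvw⟩ := one_lt_card.1 (show 1 < S.card by omega)
    rw [card_pos]
    refine ⟨φ.symm ⟨s(v, w), by simpa using hvw⟩, ?_⟩
    rw [inside, mem_filter]
    refine ⟨mem_univ _, fun u hu => ?_⟩
    rw [Equiv.apply_symm_apply] at hu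
    rcases Sym2.mem_iff.1 hu with rfl | rfl
    · exact hv
    · exact hw
  set 𝒮 : Finset (Finset (Fin n)) := (univ : Finset (Fin n)).powersetCard s with h𝒮
  have h𝒮2 : 𝒮.card = n.choose s := by
    rw [h𝒮, card_powersetCard, card_univ, Fintype.card_fin]
  have hcpos : 0 < n.choose s := Nat.choose_pos (by omega)
  -- descriptors
  have hdesc : ∀ S : Finset (Fin n), ∃ d : (Fin (a + 2) → Option P.State) ×
      (Fin (a + 1) → Option P.State), S.card = s →
      (d.1 0 = some P.start ∧ d.1 (Fin.last (a + 1)) = none ∧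
      (∀ t, K6_C P a d (kin φ S) t) ∧
      ∀ j : Fin (a + 1), a * (SVar P (d.1 j.castSucc) (d.2 j) ∩ inside φ S).card ≤
        (inside φ S).card) := by
    intro S
    by_cases hS : S.card = s
    · obtain ⟨κ, u, h1, h2, h3, h4, h5⟩ := cutU a P hP (inside φ S) (hU0 S hS) (kin φ S)
        (hyes _ ⟨S, hS, kin_clique φ S⟩)
      refine ⟨(κ, u), fun _ => ⟨h1, h2, ?_, h5⟩⟩
      rintro (j | j)
      · exact h3 j
      · exact h4 j
    · exact ⟨(fun _ => none, fun _ => none), fun h => absurd h hS⟩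
  choose dd hdd using hdesc
  obtain ⟨d, _, hd⟩ := exists_max_image univ
    (fun d => (𝒮.filter (fun S => dd S = d)).card) (univ_nonempty (α :=
      (Fin (a + 2) → Option P.State) × (Fin (a + 1) → Option P.State)))
  set 𝔽 := 𝒮.filter (fun S => dd S = d) with h𝔽
  have hcover : 𝒮.card ≤ 𝔽.card * (univ : Finset ((Fin (a + 2) → Option P.State) ×
      (Fin (a + 1) → Option P.State))).card :=
    card_le_mul_card_image_of_maps_to (f := dd) (fun _ _ => mem_univ _) _
      (fun b _ => hd b (mem_univ _))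
  have hD : (univ : Finset ((Fin (a + 2) → Option P.State) ×
      (Fin (a + 1) → Option P.State))).card = (Fintype.card P.State + 1) ^ (2 * a + 3) := by
    rw [card_univ, Fintype.card_prod, Fintype.card_fun, Fintype.card_fun, Fintype.card_option,
      Fintype.card_fin, Fintype.card_fin, ← pow_add]
    congr 1
    ring
  rw [hD, h𝒮2] at hcover
  have hFpos : 0 < 𝔽.card := by
    rcases Nat.eq_zero_or_pos 𝔽.card with h0 | h0
    · rw [h0, zero_mul] at hcover
      omega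
    · exact h0
  obtain ⟨S₀, hS₀⟩ := card_pos.1 hFpos
  have hmem : ∀ S ∈ 𝔽, S.card = s ∧ dd S = d := by
    intro S hS
    rw [h𝔽, mem_filter, h𝒮, mem_powersetCard] at hS
    exact ⟨hS.1.2, hS.2⟩
  have hprop : ∀ S ∈ 𝔽, (d.1 0 = some P.start ∧ d.1 (Fin.last (a + 1)) = none ∧
      (∀ t, K6_C P a d (kin φ S) t) ∧
      ∀ j : Fin (a + 1), a * (SVar P (d.1 j.castSucc) (d.2 j) ∩ inside φ S).card ≤
        (inside φ S).card) := by
    intro S hS
    obtain ⟨h2, h3⟩ := hmem S hS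
    have h4 := hdd S h2
    rwa [h3] at h4
  obtain ⟨hstart, hend, hC0, _⟩ := hprop S₀ hS₀
  have hmult : ∀ i : Fin N, ∀ t t' : Fin (a + 1) ⊕ Fin (a + 1), i ∈ K6_X P a d t →
      i ∈ K6_X P a d t' → t = t' := by
    intro i t t' ht ht'
    have h1 := rk_mult 1 P hP (kin φ S₀) d.1 d.2 hstart (fun j => hC0 (Sum.inl j))
      (fun j => hC0 (Sum.inr j)) i
    rcases t with j | j <;> rcases t' with j' | j'
    · have h2 : (univ.filter (fun j : Fin (a + 1) =>
          i ∈ SVar P (d.1 j.castSucc) (d.2 j))).card ≤ 1 := by omega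
      rw [card_le_one.1 h2 j (mem_filter.2 ⟨mem_univ _, ht⟩) j' (mem_filter.2 ⟨mem_univ _, ht'⟩)]
    · have h2 : 0 < (univ.filter (fun j : Fin (a + 1) =>
          i ∈ SVar P (d.1 j.castSucc) (d.2 j))).card :=
        card_pos.2 ⟨j, mem_filter.2 ⟨mem_univ _, ht⟩⟩
      have h3 : 0 < (univ.filter (fun j : Fin (a + 1) => i ∈ EVar P (d.2 j))).card :=
        card_pos.2 ⟨j', mem_filter.2 ⟨mem_univ _, ht'⟩⟩
      omega
    · have h2 : 0 < (univ.filter (fun j : Fin (a + 1) =>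
          i ∈ SVar P (d.1 j.castSucc) (d.2 j))).card :=
        card_pos.2 ⟨j', mem_filter.2 ⟨mem_univ _, ht'⟩⟩
      have h3 : 0 < (univ.filter (fun j : Fin (a + 1) => i ∈ EVar P (d.2 j))).card :=
        card_pos.2 ⟨j, mem_filter.2 ⟨mem_univ _, ht⟩⟩
      omega
    · have h2 : (univ.filter (fun j : Fin (a + 1) => i ∈ EVar P (d.2 j))).card ≤ 1 := by omega
      rw [card_le_one.1 h2 j (mem_filter.2 ⟨mem_univ _, ht⟩) j' (mem_filter.2 ⟨mem_univ _, ht'⟩)]
  have hX : ∀ S ∈ 𝔽, ∀ t, a * (K6_X P a d t ∩ inside φ S).card ≤ s ^ 2 := by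
    intro S hS
    rintro (j | j)
    · have h1 : a * (K6_X P a d (Sum.inl j) ∩ inside φ S).card ≤ (inside φ S).card :=
        (hprop S hS).2.2.2 j
      exact h1.trans (hU1 S (hmem S hS).1)
    · have h1 : (K6_X P a d (Sum.inr j) ∩ inside φ S).card ≤ 1 :=
        (card_le_card inter_subset_left).trans (K6_evar_card P (d.2 j))
      calc a * (K6_X P a d (Sum.inr j) ∩ inside φ S).card ≤ a * 1 := Nat.mul_le_mul_left _ h1
        _ ≤ s ^ 2 := by omega
  have hcore := core (T := Fin (a + 1) ⊕ Fin (a + 1)) (V := Fin n)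
    (fun v w t => PairIn φ (K6_X P a d t) v w) s g hg (by omega)
    (by rw [Fintype.card_fin]; exact hn)
    (fun v t h => h.1 rfl)
    (fun v w t h => ⟨h.1.symm, by
      obtain ⟨i, hi, hi2⟩ := h.2
      exact ⟨i, hi, by rw [hi2, Sym2.eq_swap]⟩⟩)
    (fun v w t t' h h' => by
      obtain ⟨i, hi, hi2⟩ := h.2
      obtain ⟨i', hi', hi2'⟩ := h'.2
      have : i = i' := φ.injective (Subtype.ext (hi2.trans hi2'.symm))
      subst this
      exact hmult i t t' hi hi')
    𝔽 (fun S hS => (hmem S hS).1)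
    (fun S hS t => by
      have h1 := pairIn_card φ (K6_X P a d t) S
      have h2 := hX S hS t
      calc 225 * g ^ 4 * _ ≤ a * (2 * (K6_X P a d t ∩ inside φ S).card) :=
            Nat.mul_le_mul_left _ h1
        _ = 2 * (a * (K6_X P a d t ∩ inside φ S).card) := by ring
        _ ≤ 2 * s ^ 2 := Nat.mul_le_mul_left _ h2)
    (by
      intro F hF
      set y : Fin N → Bool := fun i => decide (∃ t, i ∈ K6_X P a d t ∧ kin φ (F t) i = true)
        with hy
      have hyC : ∀ t, K6_C P a d y t := by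
        intro t
        refine K6_C_congr (fun P x y u w h hx => reach_congr P x y u w h hx) P a d
          (kin φ (F t)) y t ?_ ((hprop _ (hF t)).2.2.1 t)
        intro v hv
        rw [Bool.eq_iff_iff, hy]
        rw [decide_eq_true_iff]
        constructor
        · intro h
          exact ⟨t, hv, h⟩
        · rintro ⟨t', h1, h2⟩
          rw [hmult v t t' hv h1]
          exact h2
      have hacc : Acc P y := rk_glue P y d.1 d.2 hstart hend (fun j => hyC (Sum.inl j))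
        (fun j => hyC (Sum.inr j))
      obtain ⟨Q, hQ1, hQ2⟩ := hno y hacc
      refine ⟨Q, hQ1, fun v hv w hw hvw => ?_⟩
      have h1 := hQ2 (mem_coe.2 hv) (mem_coe.2 hw) hvw
      rw [graphOf, SimpleGraph.fromEdgeSet_adj] at h1
      obtain ⟨⟨i, hi1, hi2⟩, _⟩ := h1
      rw [hy, decide_eq_true_iff] at hi2
      obtain ⟨t, ht1, ht2⟩ := hi2
      unfold kin at ht2
      rw [decide_eq_true_iff, hi1] at ht2
      exact ⟨t, ⟨hvw, i, ht1, hi1⟩, ht2 v (Sym2.mem_mk_left _ _), ht2 w (Sym2.mem_mk_right _ _)⟩)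
  have hT : Fintype.card (Fin (a + 1) ⊕ Fin (a + 1)) = 2 * a + 2 := by
    rw [Fintype.card_sum, Fintype.card_fin]; ring
  rw [hT, Fintype.card_fin] at hcore
  set B := Fintype.card P.State + 1 with hB
  -- numerics
  have hA2 : n.choose s ^ (2 * a + 2) * n ^ s ≤
      n.choose s ^ (2 * a + 2) * (s ^ s * B ^ ((2 * a + 3) * (2 * a + 2))) := by
    calc n.choose s ^ (2 * a + 2) * n ^ s ≤ (𝔽.card * B ^ (2 * a + 3)) ^ (2 * a + 2) * n ^ s :=
          Nat.mul_le_mul_right _ (Nat.pow_le_pow_left hcover _)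
      _ = (𝔽.card ^ (2 * a + 2) * n ^ s) * B ^ ((2 * a + 3) * (2 * a + 2)) := by
          rw [mul_pow, ← pow_mul]; ring
      _ ≤ (s ^ s * n.choose s ^ (2 * a + 2)) * B ^ ((2 * a + 3) * (2 * a + 2)) :=
          Nat.mul_le_mul_right _ hcore
      _ = _ := by ring
  have hA3 : n ^ s ≤ s ^ s * B ^ ((2 * a + 3) * (2 * a + 2)) :=
    Nat.le_of_mul_le_mul_left hA2 (by positivity)
  refine hA3.trans (Nat.mul_le_mul_left _ (Nat.pow_le_pow_right (by omega) ?_))
  have h1 : 2 * a + 3 ≤ 453 * g ^ 4 := by omega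
  have h2 : 2 * a + 2 ≤ 452 * g ^ 4 := by omega
  calc (2 * a + 3) * (2 * a + 2) ≤ (453 * g ^ 4) * (452 * g ^ 4) := Nat.mul_le_mul h1 h2
    _ = 204756 * g ^ 8 := by ring
    _ ≤ 2 ^ 18 * g ^ 8 := Nat.mul_le_mul_right _ (by norm_num)

end Pool.Agent.H641R3.RG
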