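import Pool.Agent.H641R3.RG.CoreC
import Pool.Agent.H641R3.RG.Main

/-!
# Nondeterministic read-once programs cannot approximate the chromatic number
-/

set_option autoImplicit false

open Finset

namespace Pool.Agent.H641R3.RG

open Pool.Agent.H554R2.Sem Pool.Agent.H554R2.RK

/-- the bits of the complete bipartite graph between the two classes of `α` -/
noncomputable def cin {n N : ℕ} (φ : Fin N ≃ {e : Sym2 (Fin n) // ¬ e.IsDiag})
    (α : Fin n → Bool) : Fin N → Bool := by
  classical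
  exact fun i => decide (∃ v w, (φ i).1 = s(v, w) ∧ α v ≠ α w)

theorem cin_iff {n N : ℕ} (φ : Fin N ≃ {e : Sym2 (Fin n) // ¬ e.IsDiag})
    (α : Fin n → Bool) (i : Fin N) (v w : Fin n) (h : (φ i).1 = s(v, w)) :
    cin φ α i = false ↔ α v = α w := by
  unfold cin
  rw [decide_eq_false_iff_not]
  constructor
  · intro h1
    by_contra h2
    exact h1 ⟨v, w, h, h2⟩
  · rintro h1 ⟨v', w', h2, h3⟩
    rw [h] at h2
    rcases Sym2.eq_iff.1 h2 with ⟨rfl, rfl⟩ | ⟨rfl, rfl⟩
    · exact h3 h1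
    · exact h3 h1.symm

theorem cin_colorable {n N : ℕ} (φ : Fin N ≃ {e : Sym2 (Fin n) // ¬ e.IsDiag})
    (α : Fin n → Bool) : (graphOf φ (cin φ α)).Colorable 2 := by
  have C : (graphOf φ (cin φ α)).Coloring Bool := SimpleGraph.Coloring.mk α (by
    intro v w hvw h
    rw [graphOf, SimpleGraph.fromEdgeSet_adj] at hvw
    obtain ⟨⟨i, hi1, hi2⟩, _⟩ := hvw
    rw [(cin_iff φ α i v w hi1).2 h] at hi2
    exact Bool.false_ne_true hi2)
  exact C.colorable

theorem lowerC (n g N : ℕ) (hg : 1 ≤ g) (hs : 15 * g ^ 2 ≤ n)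
    (φ : Fin N ≃ {e : Sym2 (Fin n) // ¬ e.IsDiag}) (P : NBP (Fin N)) (hP : ReadK P 1)
    (hyes : ∀ x, (graphOf φ x).Colorable 2 → Acc P x)
    (hno : ∀ x, Acc P x → ∃ Q : Finset (Fin n), n ≤ g * Q.card ∧
      (graphOf φ x).IsIndepSet (Q : Set (Fin n))) :
    2 ^ n ≤ (Fintype.card P.State + 1) ^ (2 ^ 18 * g ^ 8) := by
  classical
  have hg2 : g ≤ g ^ 2 := Nat.le_self_pow (by norm_num) g
  have hg4 : 1 ≤ g ^ 4 := Nat.one_le_pow _ _ hg
  set a : ℕ := 225 * g ^ 4 with ha
  have has : a ≤ n ^ 2 := by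
    calc a = (15 * g ^ 2) ^ 2 := by rw [ha]; ring
      _ ≤ n ^ 2 := Nat.pow_le_pow_left hs 2
  set abs : (Fin n → Bool) → Finset (Fin N) := fun α => univ.filter (fun i => cin φ α i = false)
    with habs
  have hU1 : ∀ α, (abs α).card ≤ n ^ 2 := by
    intro α
    have h0 : abs α ⊆ inside φ univ := by
      intro i _
      rw [inside, mem_filter]
      exact ⟨mem_univ _, fun v _ => mem_univ _⟩
    have h1 := (card_le_card h0).trans (inside_card φ univ)
    rw [card_univ, Fintype.card_fin, Nat.choose_two_right, Nat.add_sub_cancel] at h1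
    have h4 : n ≤ n ^ 2 := Nat.le_self_pow (by norm_num) n
    have h5 : (n + 1) * n / 2 ≤ n ^ 2 := by
      apply Nat.div_le_of_le_mul
      have : (n + 1) * n = n ^ 2 + n := by ring
      omega
    omega
  have hU0 : ∀ α, 0 < (abs α).card := by
    intro α
    obtain ⟨v, w, hvw, hαvw⟩ := Fintype.exists_ne_map_eq_of_card_lt α (by
      rw [Fintype.card_bool, Fintype.card_fin]; omega)
    rw [card_pos]
    refine ⟨φ.symm ⟨s(v, w), by simpa using hvw⟩, ?_⟩
    rw [habs, mem_filter]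
    refine ⟨mem_univ _, (cin_iff φ α _ v w (by rw [Equiv.apply_symm_apply])).2 hαvw⟩
  have hdesc : ∀ α : Fin n → Bool, ∃ d : (Fin (a + 2) → Option P.State) ×
      (Fin (a + 1) → Option P.State),
      (d.1 0 = some P.start ∧ d.1 (Fin.last (a + 1)) = none ∧
      (∀ t, K6_C P a d (cin φ α) t) ∧
      ∀ j : Fin (a + 1), a * (SVar P (d.1 j.castSucc) (d.2 j) ∩ abs α).card ≤
        (abs α).card) := by
    intro α
    obtain ⟨κ, u, h1, h2, h3, h4, h5⟩ := cutU a P hP (abs α) (hU0 α) (cin φ α)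
      (hyes _ (cin_colorable φ α))
    refine ⟨(κ, u), h1, h2, ?_, h5⟩
    rintro (j | j)
    · exact h3 j
    · exact h4 j
  choose dd hdd using hdesc
  obtain ⟨d, _, hd⟩ := exists_max_image univ
    (fun d => ((univ : Finset (Fin n → Bool)).filter (fun S => dd S = d)).card)
    (univ_nonempty (α := (Fin (a + 2) → Option P.State) × (Fin (a + 1) → Option P.State)))
  set 𝔽 := (univ : Finset (Fin n → Bool)).filter (fun S => dd S = d) with h𝔽
  have hcover : (univ : Finset (Fin n → Bool)).card ≤ 𝔽.card *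
      (univ : Finset ((Fin (a + 2) → Option P.State) × (Fin (a + 1) → Option P.State))).card :=
    card_le_mul_card_image_of_maps_to (f := dd) (fun _ _ => mem_univ _) _
      (fun b _ => hd b (mem_univ _))
  have hD : (univ : Finset ((Fin (a + 2) → Option P.State) ×
      (Fin (a + 1) → Option P.State))).card = (Fintype.card P.State + 1) ^ (2 * a + 3) := by
    rw [card_univ, Fintype.card_prod, Fintype.card_fun, Fintype.card_fun, Fintype.card_option,
      Fintype.card_fin, Fintype.card_fin, ← pow_add]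
    congr 1
    ring
  rw [hD, card_univ, Fintype.card_fun, Fintype.card_fin, Fintype.card_bool] at hcover
  have hFpos : 0 < 𝔽.card := by
    rcases Nat.eq_zero_or_pos 𝔽.card with h0 | h0
    · rw [h0, zero_mul] at hcover
      have : 0 < 2 ^ n := by positivity
      omega
    · exact h0
  obtain ⟨S₀, hS₀⟩ := card_pos.1 hFpos
  have hprop : ∀ S ∈ 𝔽, (d.1 0 = some P.start ∧ d.1 (Fin.last (a + 1)) = none ∧
      (∀ t, K6_C P a d (cin φ S) t) ∧
      ∀ j : Fin (a + 1), a * (SVar P (d.1 j.castSucc) (d.2 j) ∩ abs S).card ≤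
        (abs S).card) := by
    intro S hS
    rw [h𝔽, mem_filter] at hS
    have h4 := hdd S
    rwa [hS.2] at h4
  obtain ⟨hstart, hend, hC0, _⟩ := hprop S₀ hS₀
  have hmult : ∀ i : Fin N, ∀ t t' : Fin (a + 1) ⊕ Fin (a + 1), i ∈ K6_X P a d t →
      i ∈ K6_X P a d t' → t = t' := by
    intro i t t' ht ht'
    have h1 := rk_mult 1 P hP (cin φ S₀) d.1 d.2 hstart (fun j => hC0 (Sum.inl j))
      (fun j => hC0 (Sum.inr j)) i
    rcases t with j | j <;> rcases t' with j' | j'
    · have h2 : (univ.filter (fun j : Fin (a + 1) =>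
          i ∈ SVar P (d.1 j.castSucc) (d.2 j))).card ≤ 1 := by omega
      rw [card_le_one.1 h2 j (mem_filter.2 ⟨mem_univ _, ht⟩) j' (mem_filter.2 ⟨mem_univ _, ht'⟩)]
    · have h2 : 0 < (univ.filter (fun j : Fin (a + 1) =>
          i ∈ SVar P (d.1 j.castSucc) (d.2 j))).card :=
        card_pos.2 ⟨j, mem_filter.2 ⟨mem_univ _, ht⟩⟩
      have h3 : 0 < (univ.filter (fun j : Fin (a + 1) => i ∈ EVar P (d.2 j))).card :=
        card_pos.2 ⟨j', mem_filter.2 ⟨mem_univ _, ht'⟩⟩
      omega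
    · have h2 : 0 < (univ.filter (fun j : Fin (a + 1) =>
          i ∈ SVar P (d.1 j.castSucc) (d.2 j))).card :=
        card_pos.2 ⟨j', mem_filter.2 ⟨mem_univ _, ht'⟩⟩
      have h3 : 0 < (univ.filter (fun j : Fin (a + 1) => i ∈ EVar P (d.2 j))).card :=
        card_pos.2 ⟨j, mem_filter.2 ⟨mem_univ _, ht⟩⟩
      omega
    · have h2 : (univ.filter (fun j : Fin (a + 1) => i ∈ EVar P (d.2 j))).card ≤ 1 := by omega
      rw [card_le_one.1 h2 j (mem_filter.2 ⟨mem_univ _, ht⟩) j' (mem_filter.2 ⟨mem_univ _, ht'⟩)]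
  have hX : ∀ S ∈ 𝔽, ∀ t, a * (K6_X P a d t ∩ abs S).card ≤ n ^ 2 := by
    intro S hS
    rintro (j | j)
    · have h1 : a * (K6_X P a d (Sum.inl j) ∩ abs S).card ≤ (abs S).card :=
        (hprop S hS).2.2.2 j
      exact h1.trans (hU1 S)
    · have h1 : (K6_X P a d (Sum.inr j) ∩ abs S).card ≤ 1 :=
        (card_le_card inter_subset_left).trans (K6_evar_card P (d.2 j))
      calc a * (K6_X P a d (Sum.inr j) ∩ abs S).card ≤ a * 1 := Nat.mul_le_mul_left _ h1
        _ ≤ n ^ 2 := by omega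
  have hcore := coreC (T := Fin (a + 1) ⊕ Fin (a + 1)) n g
    (fun v w t => PairIn φ (K6_X P a d t) v w) hg (by omega)
    (fun v t h => h.1 rfl)
    (fun v w t h => ⟨h.1.symm, by
      obtain ⟨i, hi, hi2⟩ := h.2
      exact ⟨i, hi, by rw [hi2, Sym2.eq_swap]⟩⟩)
    (fun v w t t' h h' => by
      obtain ⟨i, hi, hi2⟩ := h.2
      obtain ⟨i', hi', hi2'⟩ := h'.2
      have : i = i' := φ.injective (Subtype.ext (hi2.trans hi2'.symm))
      subst this
      exact hmult i t t' hi hi')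
    𝔽
    (fun α hα t => by
      have h1 := pairIn_card φ (K6_X P a d t ∩ abs α) univ
      have h2 := hX α hα t
      have h3 : (((univ : Finset (Fin n)) ×ˢ (univ : Finset (Fin n))).filter
          (fun z => α z.1 = α z.2 ∧ PairIn φ (K6_X P a d t) z.1 z.2)).card ≤
          (((univ : Finset (Fin n)) ×ˢ (univ : Finset (Fin n))).filter
          (fun z => PairIn φ (K6_X P a d t ∩ abs α) z.1 z.2)).card := by
        apply card_le_card
        intro z hz
        rw [mem_filter] at hz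
        obtain ⟨hz1, hz2, hz3, i, hi, hi2⟩ := hz
        rw [mem_filter]
        refine ⟨hz1, hz3, i, mem_inter.2 ⟨hi, ?_⟩, hi2⟩
        rw [habs, mem_filter]
        exact ⟨mem_univ _, (cin_iff φ α i _ _ hi2).2 hz2⟩
      have h4 : (K6_X P a d t ∩ abs α ∩ inside φ univ).card ≤ (K6_X P a d t ∩ abs α).card :=
        card_le_card inter_subset_left
      calc 225 * g ^ 4 * _ ≤ a * (2 * (K6_X P a d t ∩ abs α).card) :=
            Nat.mul_le_mul_left _ (h3.trans (h1.trans (Nat.mul_le_mul_left _ h4)))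
        _ = 2 * (a * (K6_X P a d t ∩ abs α).card) := by ring
        _ ≤ 2 * n ^ 2 := Nat.mul_le_mul_left _ h2)
    (by
      intro F hF
      set y : Fin N → Bool := fun i => decide (∀ t, i ∈ K6_X P a d t → cin φ (F t) i = true)
        with hy
      have hyC : ∀ t, K6_C P a d y t := by
        intro t
        refine K6_C_congr (fun P x y u w h hx => reach_congr P x y u w h hx) P a d
          (cin φ (F t)) y t ?_ ((hprop _ (hF t)).2.2.1 t)
        intro v hv
        rw [Bool.eq_iff_iff, hy]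
        rw [decide_eq_true_iff]
        constructor
        · intro h t' ht'
          rw [← hmult v t t' hv ht']
          exact h
        · intro h
          exact h t hv
      have hacc : Acc P y := rk_glue P y d.1 d.2 hstart hend (fun j => hyC (Sum.inl j))
        (fun j => hyC (Sum.inr j))
      obtain ⟨Q, hQ1, hQ2⟩ := hno y hacc
      refine ⟨Q, hQ1, fun v hv w hw hvw => ?_⟩
      have h1 := hQ2 (mem_coe.2 hv) (mem_coe.2 hw) hvw
      rw [graphOf, SimpleGraph.fromEdgeSet_adj] at h1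
      set i : Fin N := φ.symm ⟨s(v, w), by simpa using hvw⟩ with hi
      have hi1 : (φ i).1 = s(v, w) := by rw [hi, Equiv.apply_symm_apply]
      have h2 : ¬ y i = true := fun h => h1 ⟨⟨i, hi1, h⟩, hvw⟩
      rw [hy, decide_eq_true_iff] at h2
      push Not at h2
      obtain ⟨t, ht1, ht2⟩ := h2
      refine ⟨t, ⟨hvw, i, ht1, hi1⟩, (cin_iff φ (F t) i v w hi1).1 ?_⟩
      simpa using ht2)
  have hT : Fintype.card (Fin (a + 1) ⊕ Fin (a + 1)) = 2 * a + 2 := by
    rw [Fintype.card_sum, Fintype.card_fin]; ring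
  rw [hT] at hcore
  set B := Fintype.card P.State + 1 with hB
  have hA2 : 2 ^ (n * (2 * a + 2)) * 2 ^ n ≤
      2 ^ (n * (2 * a + 2)) * B ^ ((2 * a + 3) * (2 * a + 2)) := by
    calc 2 ^ (n * (2 * a + 2)) * 2 ^ n = (2 ^ n) ^ (2 * a + 2) * 2 ^ n := by rw [← pow_mul]
      _ ≤ (𝔽.card * B ^ (2 * a + 3)) ^ (2 * a + 2) * 2 ^ n :=
          Nat.mul_le_mul_right _ (Nat.pow_le_pow_left hcover _)
      _ = (𝔽.card ^ (2 * a + 2) * 2 ^ n) * B ^ ((2 * a + 3) * (2 * a + 2)) := by
          rw [mul_pow, ← pow_mul]; ring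
      _ ≤ _ := Nat.mul_le_mul_right _ hcore
  have hA3 : 2 ^ n ≤ B ^ ((2 * a + 3) * (2 * a + 2)) :=
    Nat.le_of_mul_le_mul_left hA2 (by positivity)
  refine hA3.trans (Nat.pow_le_pow_right (by omega) ?_)
  have h1 : 2 * a + 3 ≤ 453 * g ^ 4 := by omega
  have h2 : 2 * a + 2 ≤ 452 * g ^ 4 := by omega
  calc (2 * a + 3) * (2 * a + 2) ≤ (453 * g ^ 4) * (452 * g ^ 4) := Nat.mul_le_mul h1 h2
    _ = 204756 * g ^ 8 := by ring
    _ ≤ 2 ^ 18 * g ^ 8 := Nat.mul_le_mul_right _ (by norm_num)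

end Pool.Agent.H641R3.RG
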