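import Pool.Agent.H641R3.RG.Extract
import Pool.Agent.H641R3.RG.CoreH

/-!
# Nondeterministic read-once programs and almost Hamiltonian graphs
-/

set_option autoImplicit false

open Finset

namespace Pool.Agent.H641R3.RG

open Pool.Agent.H554R2.Sem Pool.Agent.H554R2.RK

theorem edge_mem {n N : ℕ} (φ : Fin N ≃ {e : Sym2 (Fin n) // ¬ e.IsDiag}) (x : Fin N → Bool)
    (e : Sym2 (Fin n)) (he : e ∈ (graphOf φ x).edgeSet) : ∃ v, (φ v).1 = e ∧ x v = true := by
  induction e with
  | h a b =>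
    rw [SimpleGraph.mem_edgeSet, graphOf, SimpleGraph.fromEdgeSet_adj] at he
    exact he.1

theorem lowerH (h N : ℕ) (hh : 64 ≤ h)
    (φ : Fin N ≃ {e : Sym2 (Fin (h * 6)) // ¬ e.IsDiag}) (P : NBP (Fin N)) (hP : ReadK P 1)
    (hyes : ∀ x, (graphOf φ x).IsHamiltonian → Acc P x)
    (hno : ∀ x, Acc P x → ∃ Q : Finset (Sym2 (Fin (h * 6))),
      (∀ e ∈ Q, e ∈ (graphOf φ x).edgeSet) ∧ (∀ v, (Q.filter (fun e => v ∈ e)).card ≤ 2) ∧
      3071 * (h * 6) ≤ 3072 * Q.card) :
    2 ^ (h / 2) ≤ (Fintype.card P.State + 1) ^ (2 ^ 20) := by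
  classical
  obtain ⟨a, ha⟩ : ∃ a : ℕ, a = 384 := ⟨384, rfl⟩
  have hU0 : ∀ π : Equiv.Perm (Fin h), 0 < (cvars φ π).card := by
    intro π
    rw [card_pos]
    have i : Fin h := ⟨0, by omega⟩
    have hnd : ¬ (s(vx i 0, vx i 1) : Sym2 (Fin (h * 6))).IsDiag := by
      rw [Sym2.mk_isDiag_iff]
      intro h1
      exact absurd (vx_inj.1 h1).2 (by decide)
    refine ⟨φ.symm ⟨s(vx i 0, vx i 1), hnd⟩, ?_⟩
    rw [cvars, mem_filter, Equiv.apply_symm_apply]
    exact ⟨mem_univ _, i, 0, rfl⟩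
  have hdesc : ∀ π : Equiv.Perm (Fin h), ∃ d : (Fin (a + 2) → Option P.State) ×
      (Fin (a + 1) → Option P.State),
      (d.1 0 = some P.start ∧ d.1 (Fin.last (a + 1)) = none ∧
      (∀ t, K6_C P a d (yin φ π) t) ∧
      ∀ j : Fin (a + 1), a * (SVar P (d.1 j.castSucc) (d.2 j) ∩ cvars φ π).card ≤
        (cvars φ π).card) := by
    intro π
    obtain ⟨κ, u, h1, h2, h3, h4, h5⟩ := cutU a P hP (cvars φ π) (hU0 π) (yin φ π)
      (hyes _ (yin_ham (by omega) φ π))
    refine ⟨(κ, u), h1, h2, ?_, h5⟩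
    rintro (j | j)
    · exact h3 j
    · exact h4 j
  choose dd hdd using hdesc
  obtain ⟨d, _, hd⟩ := exists_max_image univ
    (fun d => ((univ : Finset (Equiv.Perm (Fin h))).filter (fun S => dd S = d)).card)
    (univ_nonempty (α := (Fin (a + 2) → Option P.State) × (Fin (a + 1) → Option P.State)))
  set 𝔽 := (univ : Finset (Equiv.Perm (Fin h))).filter (fun S => dd S = d) with h𝔽
  have hcover : (univ : Finset (Equiv.Perm (Fin h))).card ≤ 𝔽.card *
      (univ : Finset ((Fin (a + 2) → Option P.State) × (Fin (a + 1) → Option P.State))).card :=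
    card_le_mul_card_image_of_maps_to (f := dd) (fun _ _ => mem_univ _) _
      (fun b _ => hd b (mem_univ _))
  have hD : (univ : Finset ((Fin (a + 2) → Option P.State) ×
      (Fin (a + 1) → Option P.State))).card = (Fintype.card P.State + 1) ^ (2 * a + 3) := by
    rw [card_univ, Fintype.card_prod, Fintype.card_fun, Fintype.card_fun, Fintype.card_option,
      Fintype.card_fin, Fintype.card_fin, ← pow_add]
    congr 1
    omega
  rw [hD, card_univ, Fintype.card_perm, Fintype.card_fin] at hcover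
  have hcpos : 0 < h.factorial := Nat.factorial_pos h
  have hFpos : 0 < 𝔽.card := by
    rcases Nat.eq_zero_or_pos 𝔽.card with h0 | h0
    · rw [h0, zero_mul] at hcover
      omega
    · exact h0
  obtain ⟨S₀, hS₀⟩ := card_pos.1 hFpos
  have hprop : ∀ S ∈ 𝔽, (d.1 0 = some P.start ∧ d.1 (Fin.last (a + 1)) = none ∧
      (∀ t, K6_C P a d (yin φ S) t) ∧
      ∀ j : Fin (a + 1), a * (SVar P (d.1 j.castSucc) (d.2 j) ∩ cvars φ S).card ≤
        (cvars φ S).card) := by
    intro S hS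
    rw [h𝔽, mem_filter] at hS
    have h4 := hdd S
    rwa [hS.2] at h4
  obtain ⟨hstart, hend, hC0, _⟩ := hprop S₀ hS₀
  have hmult : ∀ i : Fin N, ∀ t t' : Fin (a + 1) ⊕ Fin (a + 1), i ∈ K6_X P a d t →
      i ∈ K6_X P a d t' → t = t' := by
    intro i t t' ht ht'
    have h1 := rk_mult 1 P hP (yin φ S₀) d.1 d.2 hstart (fun j => hC0 (Sum.inl j))
      (fun j => hC0 (Sum.inr j)) i
    rcases t with j | j <;> rcases t' with j' | j'
    · have h2 : (univ.filter (fun j : Fin (a + 1) =>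
          i ∈ SVar P (d.1 j.castSucc) (d.2 j))).card ≤ 1 := by omega
      rw [card_le_one.1 h2 j (mem_filter.2 ⟨mem_univ _, ht⟩) j' (mem_filter.2 ⟨mem_univ _, ht'⟩)]
    · have h2 : 0 < (univ.filter (fun j : Fin (a + 1) =>
          i ∈ SVar P (d.1 j.castSucc) (d.2 j))).card :=
        card_pos.2 ⟨j, mem_filter.2 ⟨mem_univ _, ht⟩⟩
      have h3 : 0 < (univ.filter (fun j : Fin (a + 1) => i ∈ EVar P (d.2 j))).card :=
        card_pos.2 ⟨j', mem_filter.2 ⟨mem_univ _, ht'⟩⟩
      omega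
    · have h2 : 0 < (univ.filter (fun j : Fin (a + 1) =>
          i ∈ SVar P (d.1 j.castSucc) (d.2 j))).card :=
        card_pos.2 ⟨j', mem_filter.2 ⟨mem_univ _, ht'⟩⟩
      have h3 : 0 < (univ.filter (fun j : Fin (a + 1) => i ∈ EVar P (d.2 j))).card :=
        card_pos.2 ⟨j, mem_filter.2 ⟨mem_univ _, ht⟩⟩
      omega
    · have h2 : (univ.filter (fun j : Fin (a + 1) => i ∈ EVar P (d.2 j))).card ≤ 1 := by omega
      rw [card_le_one.1 h2 j (mem_filter.2 ⟨mem_univ _, ht⟩) j' (mem_filter.2 ⟨mem_univ _, ht'⟩)]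
  have hX : ∀ S ∈ 𝔽, ∀ t, 64 * (K6_X P a d t ∩ cvars φ S).card ≤ h := by
    intro S hS
    rintro (j | j)
    · have h1 : a * (K6_X P a d (Sum.inl j) ∩ cvars φ S).card ≤ (cvars φ S).card :=
        (hprop S hS).2.2.2 j
      have h2 := cvars_card φ S
      have h3 : 384 * (K6_X P a d (Sum.inl j) ∩ cvars φ S).card ≤
          a * (K6_X P a d (Sum.inl j) ∩ cvars φ S).card := Nat.mul_le_mul_right _ (by omega)
      omega
    · have h1 : (K6_X P a d (Sum.inr j) ∩ cvars φ S).card ≤ 1 :=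
        (card_le_card inter_subset_left).trans (K6_evar_card P (d.2 j))
      omega
  have hcore := coreH (T := Fin (a + 1) ⊕ Fin (a + 1)) h hh
    (fun i j t => ∃ v ∈ K6_X P a d t, (φ v).1 = s(vx i 2, vx j 3))
    (fun i j t t' h h' => by
      obtain ⟨v, hv, hv2⟩ := h
      obtain ⟨v', hv', hv2'⟩ := h'
      have : v = v' := φ.injective (Subtype.ext (hv2.trans hv2'.symm))
      subst this
      exact hmult v t t' hv hv')
    𝔽
    (fun S hS t => by
      refine le_trans (Nat.mul_le_mul_left _ ?_) (hX S hS t)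
      have hnd : ∀ i : Fin h, ¬ (s(vx i 2, vx (S i) 3) : Sym2 (Fin (h * 6))).IsDiag := by
        intro i
        rw [Sym2.mk_isDiag_iff]
        intro h1
        exact absurd (vx_inj.1 h1).2 (by decide)
      apply card_le_card_of_injOn (fun i => φ.symm ⟨s(vx i 2, vx (S i) 3), hnd i⟩)
      · intro i hi
        have hi' : i ∈ univ.filter (fun i => ∃ v ∈ K6_X P a d t,
          (φ v).1 = s(vx i 2, vx (S i) 3)) := hi
        obtain ⟨_, v, hv, hv2⟩ := mem_filter.1 hi'
        have h1 : φ.symm ⟨s(vx i 2, vx (S i) 3), hnd i⟩ = v := by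
          rw [Equiv.symm_apply_eq]
          exact Subtype.ext hv2.symm
        apply mem_coe.2
        change φ.symm ⟨s(vx i 2, vx (S i) 3), hnd i⟩ ∈ _
        rw [h1, mem_inter, cvars, mem_filter]
        exact ⟨hv, mem_univ _, i, 2, hv2⟩
      · intro i _ i' _ hii
        have h1 := congrArg Subtype.val (φ.symm.injective hii)
        rcases Sym2.eq_iff.1 h1 with ⟨h2, _⟩ | ⟨h2, _⟩
        · exact (vx_inj.1 h2).1
        · exact absurd (vx_inj.1 h2).2 (by decide))
    (by
      intro F hF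
      set y : Fin N → Bool := fun i => decide (∃ t, i ∈ K6_X P a d t ∧ yin φ (F t) i = true)
        with hy
      have hyC : ∀ t, K6_C P a d y t := by
        intro t
        refine K6_C_congr (fun P x y u w h hx => reach_congr P x y u w h hx) P a d
          (yin φ (F t)) y t ?_ ((hprop _ (hF t)).2.2.1 t)
        intro v hv
        rw [Bool.eq_iff_iff, hy]
        rw [decide_eq_true_iff]
        constructor
        · intro h
          exact ⟨t, hv, h⟩
        · rintro ⟨t', h1, h2⟩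
          rw [hmult v t t' hv h1]
          exact h2
      have hacc : Acc P y := rk_glue P y d.1 d.2 hstart hend (fun j => hyC (Sum.inl j))
        (fun j => hyC (Sum.inr j))
      obtain ⟨Q, hQ1, hQ2, hQ3⟩ := hno y hacc
      refine extract Q (fun e t => ∃ v ∈ K6_X P a d t, (φ v).1 = e) F ?_ ?_ hQ2 hQ3
      · intro e he
        exact (graphOf φ y).not_isDiag_of_mem_edgeSet (hQ1 e he)
      · intro e he
        obtain ⟨v, hv1, hv2⟩ := edge_mem φ y e (hQ1 e he)
        rw [hy, decide_eq_true_iff] at hv2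
        obtain ⟨t, ht1, ht2⟩ := hv2
        unfold yin at ht2
        rw [decide_eq_true_iff, hv1] at ht2
        exact ⟨t, ⟨v, ht1, hv1⟩, ht2⟩)
  have hT : Fintype.card (Fin (a + 1) ⊕ Fin (a + 1)) = 2 * a + 2 := by
    rw [Fintype.card_sum, Fintype.card_fin]
    omega
  rw [hT] at hcore
  set B := Fintype.card P.State + 1 with hB
  -- numerics
  have hA2 : h.factorial ^ (2 * a + 2) * 2 ^ (h / 2) ≤
      h.factorial ^ (2 * a + 2) * B ^ ((2 * a + 3) * (2 * a + 2)) := by
    calc h.factorial ^ (2 * a + 2) * 2 ^ (h / 2) ≤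
          (𝔽.card * B ^ (2 * a + 3)) ^ (2 * a + 2) * 2 ^ (h / 2) :=
          Nat.mul_le_mul_right _ (Nat.pow_le_pow_left hcover _)
      _ = (𝔽.card ^ (2 * a + 2) * 2 ^ (h / 2)) * B ^ ((2 * a + 3) * (2 * a + 2)) := by
          rw [mul_pow, ← pow_mul]; ring
      _ ≤ _ := Nat.mul_le_mul_right _ hcore
  have hA3 : 2 ^ (h / 2) ≤ B ^ ((2 * a + 3) * (2 * a + 2)) :=
    Nat.le_of_mul_le_mul_left hA2 (by positivity)
  exact hA3.trans (Nat.pow_le_pow_right (by omega) (by subst ha; norm_num))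

end Pool.Agent.H641R3.RG
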