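import Pool.Agent.H641R3.RG.CutU
import Pool.Agent.H641R3.RG.CoreS

/-!
# Nondeterministic read-once programs cannot approximate the satisfiability of 3-CNFs
-/

set_option autoImplicit false

open Finset

namespace Pool.Agent.H641R3.RG

open Pool.Agent.H554R2.Sem Pool.Agent.H554R2.RK

/-- The clause `c = (i, s)` has the three literals `e i r = s r` (the variable `e i r` has the value `s r`),
`r = 0, 1, 2`. It is violated by the assignment `β` if all three are false. -/
def Violates {n M : ℕ} (e : Fin M → Fin 3 → Fin n) (β : Fin n → Bool)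
    (c : Fin M × (Fin 3 → Bool)) : Prop := ∀ r, β (e c.1 r) ≠ c.2 r

/-- the clause of the block `i` violated by `β` -/
def vio {n M N : ℕ} (e : Fin M → Fin 3 → Fin n) (φ : Fin N ≃ Fin M × (Fin 3 → Bool))
    (β : Fin n → Bool) (i : Fin M) : Fin N := φ.symm (i, fun r => !β (e i r))

theorem vio_violates {n M N : ℕ} (e : Fin M → Fin 3 → Fin n)
    (φ : Fin N ≃ Fin M × (Fin 3 → Bool)) (β : Fin n → Bool) (i : Fin M) :
    Violates e β (φ (vio e φ β i)) := by
  unfold vio Violates
  rw [Equiv.apply_symm_apply]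
  intro r
  simp

theorem vio_inj {n M N : ℕ} (e : Fin M → Fin 3 → Fin n)
    (φ : Fin N ≃ Fin M × (Fin 3 → Bool)) (β : Fin n → Bool) :
    Function.Injective (vio e φ β) := by
  intro i j h
  exact congrArg Prod.fst (φ.symm.injective h)

theorem vio_agree {n M N : ℕ} (e : Fin M → Fin 3 → Fin n)
    (φ : Fin N ≃ Fin M × (Fin 3 → Bool)) (α β : Fin n → Bool) (i : Fin M)
    (h : Violates e α (φ (vio e φ β i))) (r : Fin 3) : α (e i r) = β (e i r) := by
  have h1 := h r
  unfold vio at h1
  rw [Equiv.apply_symm_apply] at h1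
  simpa using h1

theorem lowerS (n N : ℕ) (hn : 1 ≤ n) (e : Fin (832 * n) → Fin 3 → Fin n)
    (he : ∀ U : Finset (Fin n), 103 * U.card ≤ 6 * n →
      (univ.filter (fun i => ∀ r, e i r ∈ U)).card < n)
    (φ : Fin N ≃ Fin (832 * n) × (Fin 3 → Bool)) (P : NBP (Fin N)) (hP : ReadK P 1)
    (hyes : ∀ x, (∃ β, ∀ v, x v = true → ¬ Violates e β (φ v)) → Acc P x)
    (hno : ∀ x, Acc P x → ∃ (β : Fin n → Bool) (B : Finset (Fin (832 * n))), B.card ≤ n / 32 ∧
      ∀ i, i ∉ B → x (vio e φ β i) = false) :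
    2 ^ n ≤ (Fintype.card P.State + 1) ^ (2 ^ 16) := by
  classical
  obtain ⟨a, ha⟩ : ∃ a : ℕ, a = 103 := ⟨103, rfl⟩
  set xin : (Fin n → Bool) → Fin N → Bool := fun α v => decide (¬ Violates e α (φ v)) with hxin
  set abs : (Fin n → Bool) → Finset (Fin N) := fun α => univ.filter (fun v =>
    Violates e α (φ v)) with habs
  have hU0 : ∀ α, 0 < (abs α).card := by
    intro α
    rw [card_pos]
    exact ⟨vio e φ α ⟨0, by omega⟩, mem_filter.2 ⟨mem_univ _, vio_violates e φ α _⟩⟩
  have habsc : ∀ α, (abs α).card ≤ 832 * n := by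
    intro α
    have h1 : (abs α).card ≤ (univ : Finset (Fin (832 * n))).card := by
      apply card_le_card_of_injOn (fun v => (φ v).1) (fun v _ => mem_coe.2 (mem_univ _))
      intro v hv w hw hvw
      have hv' : v ∈ abs α := hv
      have hw' : w ∈ abs α := hw
      rw [habs, mem_filter] at hv' hw'
      apply φ.injective
      refine Prod.ext hvw (funext fun r => ?_)
      have h2 := hv'.2 r
      have h3 := hw'.2 r
      have h4 : (φ v).1 = (φ w).1 := hvw
      rw [h4] at h2
      cases h5 : (φ v).2 r <;> cases h6 : (φ w).2 r <;> simp_all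
    rwa [card_univ, Fintype.card_fin] at h1
  have hdesc : ∀ α : Fin n → Bool, ∃ d : (Fin (a + 2) → Option P.State) ×
      (Fin (a + 1) → Option P.State),
      (d.1 0 = some P.start ∧ d.1 (Fin.last (a + 1)) = none ∧
      (∀ t, K6_C P a d (xin α) t) ∧
      ∀ j : Fin (a + 1), a * (SVar P (d.1 j.castSucc) (d.2 j) ∩ abs α).card ≤
        (abs α).card) := by
    intro α
    obtain ⟨κ, u, h1, h2, h3, h4, h5⟩ := cutU a P hP (abs α) (hU0 α) (xin α)
      (hyes _ ⟨α, fun v hv => by
        rw [hxin, decide_eq_true_iff] at hv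
        exact hv⟩)
    refine ⟨(κ, u), h1, h2, ?_, h5⟩
    rintro (j | j)
    · exact h3 j
    · exact h4 j
  choose dd hdd using hdesc
  obtain ⟨d, _, hd⟩ := exists_max_image univ
    (fun d => ((univ : Finset (Fin n → Bool)).filter (fun S => dd S = d)).card)
    (univ_nonempty (α := (Fin (a + 2) → Option P.State) × (Fin (a + 1) → Option P.State)))
  set 𝔽 := (univ : Finset (Fin n → Bool)).filter (fun S => dd S = d) with h𝔽
  have hcover : (univ : Finset (Fin n → Bool)).card ≤ 𝔽.card *
      (univ : Finset ((Fin (a + 2) → Option P.State) × (Fin (a + 1) → Option P.State))).card :=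
    card_le_mul_card_image_of_maps_to (f := dd) (fun _ _ => mem_univ _) _
      (fun b _ => hd b (mem_univ _))
  have hD : (univ : Finset ((Fin (a + 2) → Option P.State) ×
      (Fin (a + 1) → Option P.State))).card = (Fintype.card P.State + 1) ^ (2 * a + 3) := by
    rw [card_univ, Fintype.card_prod, Fintype.card_fun, Fintype.card_fun, Fintype.card_option,
      Fintype.card_fin, Fintype.card_fin, ← pow_add]
    congr 1
    omega
  rw [hD, card_univ, Fintype.card_fun, Fintype.card_fin, Fintype.card_bool] at hcover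
  have hFpos : 0 < 𝔽.card := by
    rcases Nat.eq_zero_or_pos 𝔽.card with h0 | h0
    · rw [h0, zero_mul] at hcover
      have : 0 < 2 ^ n := by positivity
      omega
    · exact h0
  obtain ⟨S₀, hS₀⟩ := card_pos.1 hFpos
  have hprop : ∀ S ∈ 𝔽, (d.1 0 = some P.start ∧ d.1 (Fin.last (a + 1)) = none ∧
      (∀ t, K6_C P a d (xin S) t) ∧
      ∀ j : Fin (a + 1), a * (SVar P (d.1 j.castSucc) (d.2 j) ∩ abs S).card ≤
        (abs S).card) := by
    intro S hS
    rw [h𝔽, mem_filter] at hS
    have h4 := hdd S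
    rwa [hS.2] at h4
  obtain ⟨hstart, hend, hC0, _⟩ := hprop S₀ hS₀
  have hmult : ∀ i : Fin N, ∀ t t' : Fin (a + 1) ⊕ Fin (a + 1), i ∈ K6_X P a d t →
      i ∈ K6_X P a d t' → t = t' := by
    intro i t t' ht ht'
    have h1 := rk_mult 1 P hP (xin S₀) d.1 d.2 hstart (fun j => hC0 (Sum.inl j))
      (fun j => hC0 (Sum.inr j)) i
    rcases t with j | j <;> rcases t' with j' | j'
    · have h2 : (univ.filter (fun j : Fin (a + 1) =>
          i ∈ SVar P (d.1 j.castSucc) (d.2 j))).card ≤ 1 := by omega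
      rw [card_le_one.1 h2 j (mem_filter.2 ⟨mem_univ _, ht⟩) j' (mem_filter.2 ⟨mem_univ _, ht'⟩)]
    · have h2 : 0 < (univ.filter (fun j : Fin (a + 1) =>
          i ∈ SVar P (d.1 j.castSucc) (d.2 j))).card :=
        card_pos.2 ⟨j, mem_filter.2 ⟨mem_univ _, ht⟩⟩
      have h3 : 0 < (univ.filter (fun j : Fin (a + 1) => i ∈ EVar P (d.2 j))).card :=
        card_pos.2 ⟨j', mem_filter.2 ⟨mem_univ _, ht'⟩⟩
      omega
    · have h2 : 0 < (univ.filter (fun j : Fin (a + 1) =>
          i ∈ SVar P (d.1 j.castSucc) (d.2 j))).card :=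
        card_pos.2 ⟨j', mem_filter.2 ⟨mem_univ _, ht'⟩⟩
      have h3 : 0 < (univ.filter (fun j : Fin (a + 1) => i ∈ EVar P (d.2 j))).card :=
        card_pos.2 ⟨j, mem_filter.2 ⟨mem_univ _, ht⟩⟩
      omega
    · have h2 : (univ.filter (fun j : Fin (a + 1) => i ∈ EVar P (d.2 j))).card ≤ 1 := by omega
      rw [card_le_one.1 h2 j (mem_filter.2 ⟨mem_univ _, ht⟩) j' (mem_filter.2 ⟨mem_univ _, ht'⟩)]
  have hX : ∀ S ∈ 𝔽, ∀ t, 103 * (K6_X P a d t ∩ abs S).card ≤ 832 * n := by
    intro S hS
    rintro (j | j)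
    · have h1 : a * (K6_X P a d (Sum.inl j) ∩ abs S).card ≤ (abs S).card :=
        (hprop S hS).2.2.2 j
      have h2 := habsc S
      have h3 : 103 * (K6_X P a d (Sum.inl j) ∩ abs S).card ≤
          a * (K6_X P a d (Sum.inl j) ∩ abs S).card := Nat.mul_le_mul_right _ (by omega)
      omega
    · have h1 : (K6_X P a d (Sum.inr j) ∩ abs S).card ≤ 1 :=
        (card_le_card inter_subset_left).trans (K6_evar_card P (d.2 j))
      omega
  have hT : Fintype.card (Fin (a + 1) ⊕ Fin (a + 1)) = 208 := by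
    rw [Fintype.card_sum, Fintype.card_fin]
    omega
  have hcore := coreS (T := Fin (a + 1) ⊕ Fin (a + 1)) hT n N hn e he (vio e φ)
    (fun α β i h => by
      unfold vio
      congr 2
      funext r
      rw [h r])
    (K6_X P a d) hmult 𝔽
    (fun S hS t => by
      refine le_trans (Nat.mul_le_mul_left _ ?_) (hX S hS t)
      apply card_le_card_of_injOn (fun i => vio e φ S i)
      · intro i hi
        have hi' : i ∈ univ.filter (fun i => vio e φ S i ∈ K6_X P a d t) := hi
        apply mem_coe.2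
        change vio e φ S i ∈ _
        rw [mem_inter, habs, mem_filter]
        exact ⟨(mem_filter.1 hi').2, mem_univ _, vio_violates e φ S i⟩
      · intro i _ j _ hij
        exact vio_inj e φ S hij)
    (by
      intro F hF
      set y : Fin N → Bool := fun v => decide (∀ t, v ∈ K6_X P a d t →
        ¬ Violates e (F t) (φ v)) with hy
      have hyC : ∀ t, K6_C P a d y t := by
        intro t
        refine K6_C_congr (fun P x y u w h hx => reach_congr P x y u w h hx) P a d
          (xin (F t)) y t ?_ ((hprop _ (hF t)).2.2.1 t)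
        intro v hv
        rw [Bool.eq_iff_iff, hy, hxin]
        rw [decide_eq_true_iff, decide_eq_true_iff]
        constructor
        · intro h t' ht'
          rw [← hmult v t t' hv ht']
          exact h
        · intro h
          exact h t hv
      have hacc : Acc P y := rk_glue P y d.1 d.2 hstart hend (fun j => hyC (Sum.inl j))
        (fun j => hyC (Sum.inr j))
      obtain ⟨β, B, hB1, hB2⟩ := hno y hacc
      refine ⟨β, B, hB1, fun i hi => ?_⟩
      have h1 := hB2 i hi
      rw [hy, decide_eq_false_iff_not] at h1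
      push Not at h1
      obtain ⟨t, ht1, ht2⟩ := h1
      exact ⟨t, ht1, fun r => vio_agree e φ (F t) β i ht2 r⟩)
  obtain ⟨J, hJ⟩ : ∃ J : ℕ, J = 208 := ⟨208, rfl⟩
  rw [← hJ] at hcore
  generalize Fintype.card P.State + 1 = B at hcover ⊢
  generalize 𝔽.card = c at hcore hcover hFpos
  have hB0 : 0 < B := by
    rcases Nat.eq_zero_or_pos B with h0 | h0
    · rw [h0, zero_pow (by omega), mul_zero] at hcover
      have : 0 < 2 ^ n := by positivity
      omega
    · exact h0
  have hA2 : 2 ^ (n * J) * 2 ^ n ≤ 2 ^ (n * J) * B ^ ((2 * a + 3) * J) := by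
    calc 2 ^ (n * J) * 2 ^ n = (2 ^ n) ^ J * 2 ^ n := by rw [← pow_mul]
      _ ≤ (c * B ^ (2 * a + 3)) ^ J * 2 ^ n :=
          Nat.mul_le_mul_right _ (Nat.pow_le_pow_left hcover _)
      _ = (c ^ J * 2 ^ n) * B ^ ((2 * a + 3) * J) := by
          rw [mul_pow, ← pow_mul]; ring
      _ ≤ _ := Nat.mul_le_mul_right _ hcore
  have hA3 : 2 ^ n ≤ B ^ ((2 * a + 3) * J) :=
    Nat.le_of_mul_le_mul_left hA2 (by positivity)
  refine hA3.trans (Nat.pow_le_pow_right hB0 ?_)
  rw [ha, hJ]
  norm_num

theorem mainS (n : ℕ) (hn : 1 ≤ n) : ∃ e : Fin (832 * n) → Fin 3 → Fin n,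
    ∀ (N : ℕ) (φ : Fin N ≃ Fin (832 * n) × (Fin 3 → Bool)) (P : NBP (Fin N)), ReadK P 1 →
    (∀ x, (∃ β, ∀ v, x v = true → ¬ Violates e β (φ v)) → Acc P x) →
    (∀ x, (∀ β, Nat.card {v // x v = true} <
      2 ^ 18 * Nat.card {v // x v = true ∧ Violates e β (φ v)}) → ¬ Acc P x) →
    2 ^ n ≤ (Fintype.card P.State + 1) ^ (2 ^ 16) := by
  classical
  obtain ⟨e, he⟩ := exists_triples n hn
  refine ⟨e, fun N φ P hP hyes hno => lowerS n N hn e he φ P hP hyes fun x hx => ?_⟩
  by_contra hcon
  push Not at hcon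
  refine hno x (fun β => ?_) hx
  by_contra hlt
  push Not at hlt
  set B : Finset (Fin (832 * n)) := univ.filter (fun i => x (vio e φ β i) = true) with hB
  have h1 : B.card ≤ Nat.card {v // x v = true ∧ Violates e β (φ v)} := by
    rw [Nat.card_eq_fintype_card, Fintype.card_subtype]
    apply card_le_card_of_injOn (fun i => vio e φ β i)
    · intro i hi
      have hi' : i ∈ B := hi
      exact mem_coe.2 (mem_filter.2 ⟨mem_univ _, (mem_filter.1 hi').2, vio_violates e φ β i⟩)
    · intro i _ j _ hij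
      exact vio_inj e φ β hij
  have h2 : Nat.card {v // x v = true} ≤ 6656 * n := by
    rw [Nat.card_eq_fintype_card]
    refine (Fintype.card_subtype_le _).trans ?_
    have h3 := Fintype.card_congr φ
    rw [Fintype.card_prod, Fintype.card_fun, Fintype.card_fin, Fintype.card_fin,
      Fintype.card_bool, Fintype.card_fin] at h3
    rw [Fintype.card_fin, h3]
    omega
  obtain ⟨i, hi1, hi2⟩ := hcon β B (by omega)
  rw [hB, mem_filter] at hi1
  apply hi1
  refine ⟨mem_univ _, ?_⟩
  simpa using hi2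

end Pool.Agent.H641R3.RG
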