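import Pool.Agent.H641R3.RG.Main

/-!
# A nondeterministic read-once program for cliques
-/

set_option autoImplicit false

open Finset

namespace Pool.Agent.H641R3.RG

open Pool.Agent.H554R2.Sem Pool.Agent.H554R2.RK

/-- Guess a set of `q` vertices, then check all its pairs. -/
def prog {n N : ℕ} (φ : Fin N ≃ {e : Sym2 (Fin n) // ¬ e.IsDiag}) (q : ℕ) : NBP (Fin N) where
  State := Option ({Q : Finset (Fin n) // Q.card = q} × Fin (N + 1))
  start := none
  query := fun st => match st with
    | none => none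
    | some (Q, i) => if h : i.val < N then
        (if ∀ v ∈ (φ ⟨i.val, h⟩).1, v ∈ Q.1 then some ⟨i.val, h⟩ else none) else none
  edge := fun st b t => match st with
    | none => ∃ Q, t = some (some (Q, 0))
    | some (Q, i) => if h : i.val < N then
        (b = true ∧ t = some (some (Q, ⟨i.val + 1, Nat.succ_lt_succ h⟩))) else t = none

variable {n N : ℕ} (φ : Fin N ≃ {e : Sym2 (Fin n) // ¬ e.IsDiag}) (q : ℕ)

theorem prog_card : Fintype.card (prog φ q).State = n.choose q * (N + 1) + 1 := by
  have h1 : Fintype.card (prog φ q).State =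
      Fintype.card (Option ({Q : Finset (Fin n) // Q.card = q} × Fin (N + 1))) :=
    Fintype.card_congr (Equiv.refl _)
  rw [h1, Fintype.card_option, Fintype.card_prod, Fintype.card_fin, Fintype.card_finset_len,
    Fintype.card_fin]

theorem prog_edge_lt (Q : {Q : Finset (Fin n) // Q.card = q}) (i : Fin (N + 1)) (h : i.val < N)
    (b : Bool) (t : Option (prog φ q).State) :
    (prog φ q).edge (some (Q, i)) b t ↔
      (b = true ∧ t = some (some (Q, ⟨i.val + 1, Nat.succ_lt_succ h⟩))) := by
  simp only [prog, dif_pos h]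

theorem prog_edge_ge (Q : {Q : Finset (Fin n) // Q.card = q}) (i : Fin (N + 1)) (h : ¬ i.val < N)
    (b : Bool) (t : Option (prog φ q).State) :
    (prog φ q).edge (some (Q, i)) b t ↔ t = none := by
  simp only [prog, dif_neg h]

theorem prog_query_in (Q : {Q : Finset (Fin n) // Q.card = q}) (i : Fin (N + 1)) (h : i.val < N)
    (h2 : ∀ v ∈ (φ ⟨i.val, h⟩).1, v ∈ Q.1) :
    (prog φ q).query (some (Q, i)) = some ⟨i.val, h⟩ := by
  simp only [prog, dif_pos h, if_pos h2]

theorem prog_query_out (Q : {Q : Finset (Fin n) // Q.card = q}) (i : Fin (N + 1)) (h : i.val < N)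
    (h2 : ¬ ∀ v ∈ (φ ⟨i.val, h⟩).1, v ∈ Q.1) :
    (prog φ q).query (some (Q, i)) = none := by
  simp only [prog, dif_pos h, if_neg h2]

theorem prog_query_ge (Q : {Q : Finset (Fin n) // Q.card = q}) (i : Fin (N + 1))
    (h : ¬ i.val < N) : (prog φ q).query (some (Q, i)) = none := by
  simp only [prog, dif_neg h]

theorem prog_step_lt (x : Fin N → Bool) (Q : {Q : Finset (Fin n) // Q.card = q})
    (i : Fin (N + 1)) (h : i.val < N) (t : Option (prog φ q).State) :
    (prog φ q).Step x (some (Q, i)) t ↔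
      (((∀ v ∈ (φ ⟨i.val, h⟩).1, v ∈ Q.1) → x ⟨i.val, h⟩ = true) ∧
        t = some (some (Q, ⟨i.val + 1, Nat.succ_lt_succ h⟩))) := by
  unfold NBP.Step
  by_cases h2 : ∀ v ∈ (φ ⟨i.val, h⟩).1, v ∈ Q.1
  · rw [prog_query_in φ q Q i h h2]
    simp only [prog_edge_lt φ q Q i h]
    constructor
    · rintro ⟨h3, h4⟩
      exact ⟨fun _ => h3, h4⟩
    · rintro ⟨h3, h4⟩
      exact ⟨h3 h2, h4⟩
  · rw [prog_query_out φ q Q i h h2]
    simp only [prog_edge_lt φ q Q i h]
    constructor
    · rintro ⟨b, _, h4⟩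
      exact ⟨fun h5 => absurd h5 h2, h4⟩
    · rintro ⟨_, h4⟩
      exact ⟨true, rfl, h4⟩

theorem prog_run_sound (x : Fin N → Bool) : ∀ (l : List (prog φ q).State)
    (Q : {Q : Finset (Fin n) // Q.card = q}) (i : Fin (N + 1)),
    hd l none = some (some (Q, i)) → (prog φ q).Run x l none →
    ∀ j : Fin N, i.val ≤ j.val → (∀ v ∈ (φ j).1, v ∈ Q.1) → x j = true := by
  intro l
  induction l with
  | nil => intro Q i h; exact absurd h (by simp [hd])
  | cons st l ih =>
    intro Q i h hrun j hij hj
    have h1 : st = some (Q, i) := Option.some.inj h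
    subst h1
    obtain ⟨h2, h3⟩ := hrun
    have hi : i.val < N := lt_of_le_of_lt hij j.2
    rw [prog_step_lt φ q x Q i hi] at h2
    rcases Nat.eq_or_lt_of_le hij with h4 | h4
    · have h5 : (⟨i.val, hi⟩ : Fin N) = j := Fin.ext h4
      rw [← h5]
      apply h2.1
      rw [h5]
      exact hj
    · exact ih Q ⟨i.val + 1, Nat.succ_lt_succ hi⟩ h2.2 h3 j h4 hj

theorem prog_run_complete (x : Fin N → Bool) (Q : {Q : Finset (Fin n) // Q.card = q})
    (hQ : ∀ j : Fin N, (∀ v ∈ (φ j).1, v ∈ Q.1) → x j = true) :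
    ∀ (k : ℕ) (i : Fin (N + 1)), i.val + k = N → ∃ l : List (prog φ q).State,
      hd l none = some (some (Q, i)) ∧ (prog φ q).Run x l none := by
  intro k
  induction k with
  | zero =>
    intro i hi
    refine ⟨[some (Q, i)], rfl, ?_, trivial⟩
    have h1 : ¬ i.val < N := by omega
    change (prog φ q).Step x (some (Q, i)) none
    unfold NBP.Step
    rw [prog_query_ge φ q Q i h1]
    exact ⟨true, (prog_edge_ge φ q Q i h1 true none).2 rfl⟩
  | succ k ih =>
    intro i hi
    have h1 : i.val < N := by omega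
    obtain ⟨l, hl, hr⟩ := ih ⟨i.val + 1, Nat.succ_lt_succ h1⟩ (by simp only; omega)
    refine ⟨some (Q, i) :: l, rfl, ?_, hr⟩
    rw [hl]
    exact (prog_step_lt φ q x Q i h1 _).2 ⟨fun h => hQ _ h, rfl⟩

theorem clique_iff (x : Fin N → Bool) (Q : Finset (Fin n)) :
    (graphOf φ x).IsClique (Q : Set (Fin n)) ↔
      ∀ j : Fin N, (∀ v ∈ (φ j).1, v ∈ Q) → x j = true := by
  constructor
  · intro h j hj
    obtain ⟨a, b, hab⟩ : ∃ a b, (φ j).1 = s(a, b) := by
      induction h : (φ j).1 with
      | h a b => exact ⟨a, b, rfl⟩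
    have hne : a ≠ b := by
      have := (φ j).2
      rw [hab, Sym2.mk_isDiag_iff] at this
      exact this
    have ha : a ∈ Q := hj a (by rw [hab]; exact Sym2.mem_mk_left _ _)
    have hb : b ∈ Q := hj b (by rw [hab]; exact Sym2.mem_mk_right _ _)
    have h1 := h (mem_coe.2 ha) (mem_coe.2 hb) hne
    rw [graphOf, SimpleGraph.fromEdgeSet_adj] at h1
    obtain ⟨⟨i, hi, hx⟩, _⟩ := h1
    have : i = j := φ.injective (Subtype.ext (hi.trans hab.symm))
    rwa [this] at hx
  · intro h v hv w hw hvw
    rw [graphOf, SimpleGraph.fromEdgeSet_adj]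
    refine ⟨⟨φ.symm ⟨s(v, w), by simpa using hvw⟩, by simp, ?_⟩, hvw⟩
    apply h
    intro u hu
    rw [Equiv.apply_symm_apply] at hu
    rcases Sym2.mem_iff.1 hu with rfl | rfl
    · exact hv
    · exact hw

theorem prog_acc (x : Fin N → Bool) : Acc (prog φ q) x ↔
    ∃ Q : Finset (Fin n), Q.card = q ∧ (graphOf φ x).IsClique (Q : Set (Fin n)) := by
  constructor
  · rintro ⟨l, h1, h2⟩
    cases l with
    | nil => exact absurd h1 (by simp [hd])
    | cons st l =>
      have h3 : st = none := Option.some.inj h1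
      subst h3
      obtain ⟨h4, h5⟩ := h2
      have h6 : ∃ b, (prog φ q).edge none b (hd l none) := h4
      obtain ⟨_, Q, hQ⟩ := h6
      exact ⟨Q.1, Q.2, (clique_iff φ x Q.1).2 fun j hj =>
        prog_run_sound φ q x l Q 0 hQ h5 j (Nat.zero_le _) hj⟩
  · rintro ⟨Q, h1, h2⟩
    obtain ⟨l, hl, hr⟩ := prog_run_complete φ q x ⟨Q, h1⟩ ((clique_iff φ x Q).1 h2) N 0
      (by simp)
    refine ⟨none :: l, rfl, ?_, hr⟩
    have : ∃ b, (prog φ q).edge none b (hd l none) := ⟨true, ⟨Q, h1⟩, hl⟩
    exact this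

theorem prog_count (v : Fin N) : ∀ (l : List (prog φ q).State) (t : Option (prog φ q).State)
    (Q : {Q : Finset (Fin n) // Q.card = q}) (i : Fin (N + 1)),
    hd l t = some (some (Q, i)) → Path (prog φ q) l t →
    (l.map (prog φ q).query).count (some v) ≤ if i.val ≤ v.val then 1 else 0 := by
  intro l
  induction l with
  | nil => intro t Q i _ _; simp
  | cons st l ih =>
    intro t Q i h hp
    have h1 : st = some (Q, i) := Option.some.inj h
    obtain ⟨⟨b, h2'⟩, h3⟩ := hp
    have h2 : (prog φ q).edge (some (Q, i)) b (hd l t) := h1 ▸ h2'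
    rw [List.map_cons, List.count_cons]
    by_cases hi : i.val < N
    · rw [prog_edge_lt φ q Q i hi] at h2
      have h4 := ih t Q _ h2.2 h3
      by_cases h5 : ∀ v ∈ (φ ⟨i.val, hi⟩).1, v ∈ Q.1
      · rw [(congrArg (prog φ q).query h1).trans (prog_query_in φ q Q i hi h5)]
        by_cases h6 : (⟨i.val, hi⟩ : Fin N) = v
        · have h7 : i.val = v.val := congrArg Fin.val h6
          simp only at h4
          rw [if_neg (by omega)] at h4
          rw [if_pos h7.le]
          split_ifs <;> omega
        · have h7 : ¬ ((some (⟨i.val, hi⟩ : Fin N) == some v) = true) := by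
            simpa using h6
          rw [if_neg h7]
          simp only at h4
          have h8 : i.val ≠ v.val := fun h => h6 (Fin.ext h)
          split_ifs at h4 ⊢ <;> omega
      · rw [(congrArg (prog φ q).query h1).trans (prog_query_out φ q Q i hi h5)]
        have h7 : ¬ (((none : Option (Fin N)) == some v) = true) := by simp
        rw [if_neg h7]
        simp only at h4
        split_ifs at h4 ⊢ <;> omega
    · rw [prog_edge_ge φ q Q i hi] at h2
      cases l with
      | nil =>
        rw [(congrArg (prog φ q).query h1).trans (prog_query_ge φ q Q i hi)]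
        simp
      | cons a l => exact absurd h2 (by simp [hd])

theorem prog_readOnce : ReadK (prog φ q) 1 := by
  intro l t h hp v
  cases l with
  | nil => simp
  | cons st l =>
    have h1 : st = none := Option.some.inj h
    obtain ⟨⟨b, h2'⟩, h3⟩ := hp
    have h2'' : (prog φ q).edge none b (hd l t) := h1 ▸ h2'
    obtain ⟨Q, h2⟩ : ∃ Q, hd l t = some (some (Q, 0)) := h2''
    have h4 := prog_count φ q v l t Q 0 h2 h3
    rw [List.map_cons, List.count_cons]
    have h5 : ¬ (((prog φ q).query st == some v) = true) := by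
      have : (prog φ q).query st = none := congrArg (prog φ q).query h1
      rw [this]
      simp
    rw [if_neg h5]
    split_ifs at h4 <;> omega

theorem upper : ∃ P : NBP (Fin N), ReadK P 1 ∧
    Fintype.card P.State = n.choose q * (N + 1) + 1 ∧
    ∀ x, Acc P x ↔ ∃ Q : Finset (Fin n), Q.card = q ∧
      (graphOf φ x).IsClique (Q : Set (Fin n)) :=
  ⟨prog φ q, prog_readOnce φ q, prog_card φ q, prog_acc φ q⟩

end Pool.Agent.H641R3.RG
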